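import Mathlib

/-! General facts on single machine schedules. -/

namespace Pool.Agent.H.MP_9ce56d_lc

open Finset

variable {J : Type} {s : Finset J} {p σ : J → ℕ}

/-- completion times -/
def ct (s : Finset J) (p σ : J → ℕ) (j : J) : ℕ := ∑ i ∈ s with σ i ≤ σ j, p i

theorem ct_lt [DecidableEq J] {i j : J} (hj : j ∈ s) (h : σ i < σ j) : ct s p σ i + p j ≤ ct s p σ j := by
  rw [ct, add_comm, ← sum_insert (by simp; omega)]
  refine sum_le_sum_of_subset fun x hx => ?_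
  simp only [mem_insert, mem_filter] at hx ⊢
  rcases hx with rfl | hx
  exacts [⟨hj, le_rfl⟩, ⟨hx.1, by omega⟩]

theorem ct_dis (hσ : Set.InjOn σ s) {i j : J} (hi : i ∈ s) (hj : j ∈ s) (h : i ≠ j) :
    ct s p σ i + p j ≤ ct s p σ j ∨ ct s p σ j + p i ≤ ct s p σ i := by
  classical
  exact (lt_or_gt_of_ne fun e => h (hσ hi hj e)).imp (ct_lt hj) (ct_lt hi)

theorem le_ct {j : J} (hj : j ∈ s) : p j ≤ ct s p σ j :=
  single_le_sum (f := p) (fun _ _ => Nat.zero_le _) (mem_filter.2 ⟨hj, le_rfl⟩)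

theorem ct_le (j : J) : ct s p σ j ≤ ∑ i ∈ s, p i := sum_le_sum_of_subset (filter_subset _ _)

theorem ct_ct (hp : ∀ j ∈ s, 1 ≤ p j) {j : J} (hj : j ∈ s) : ct s p (ct s p σ) j = ct s p σ j := by
  classical
  refine sum_congr (filter_congr fun i hi => ⟨fun h => ?_, fun h => ?_⟩) fun _ _ => rfl
  · by_contra c
    have := ct_lt (p := p) hi (not_le.1 c)
    have := hp i hi
    omega
  · exact sum_le_sum_of_subset fun x hx => by simp only [mem_filter] at hx ⊢; exact ⟨hx.1, by omega⟩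

theorem smith (hσ : Set.InjOn σ s) : 2 * ∑ j ∈ s, p j * ct s p σ j = (∑ j ∈ s, p j) ^ 2 + ∑ j ∈ s, p j ^ 2 := by
  classical
  have a : ∑ j ∈ s, p j * ct s p σ j = ∑ j ∈ s, ∑ i ∈ s, if σ i ≤ σ j then p j * p i else 0 := by
    simp only [ct, mul_sum, sum_filter, mul_ite, mul_zero]
  have b : ∑ j ∈ s, p j ^ 2 = ∑ j ∈ s, ∑ i ∈ s, if i = j then p j * p i else 0 :=
    sum_congr rfl fun j hj => by simp [hj, sq]
  rw [two_mul, b, sq, sum_mul_sum]
  nth_rw 1 [a, a]
  nth_rw 1 [sum_comm]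
  simp only [← sum_add_distrib]
  refine sum_congr rfl fun j hj => sum_congr rfl fun i hi => ?_
  by_cases e : i = j
  · simp [e]
  · have : σ i ≠ σ j := fun q => e (hσ hi hj q)
    rw [mul_comm (p i)]
    split_ifs <;> omega

theorem hard_iff (hσ : Set.InjOn σ s) (hp : ∀ j ∈ s, 1 ≤ p j) {d ε : J → ℕ} {pin : J → Prop} [DecidablePred pin] {K : ℤ}
    {M : ℕ} (hM : K < M) :
    (∑ j ∈ s, ((if pin j then 4 * M * p j else 2 * M * p j + ε j : ℕ) : ℤ) * max 0 ((ct s p σ j : ℤ) - d j) ≤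
      M * ((∑ j ∈ s, p j : ℕ) ^ 2 + (∑ j ∈ s, p j ^ 2 : ℕ) - 2 * (∑ j ∈ s, p j * d j : ℕ)) + K) ↔
    (∀ j ∈ s, if pin j then ct s p σ j = d j else d j ≤ ct s p σ j) ∧
      ∑ j ∈ s, (if pin j then 0 else (ε j : ℤ) * (ct s p σ j - d j)) ≤ K := by
  have a := congrArg (Nat.cast (R := ℤ)) (smith (p := p) hσ)
  rw [Nat.cast_add, Nat.cast_pow] at a
  obtain ⟨f, hf⟩ : ∃ f : J → ℤ, ∀ j, f j = if pin j then 2 * M * p j * |(ct s p σ j : ℤ) - d j| else
    2 * M * p j * max 0 ((d j : ℤ) - ct s p σ j) + ε j * max 0 ((ct s p σ j : ℤ) - d j) := ⟨_, fun _ => rfl⟩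
  have b : ∑ j ∈ s, ((if pin j then 4 * M * p j else 2 * M * p j + ε j : ℕ) : ℤ) * max 0 ((ct s p σ j : ℤ) - d j) =
      M * ((∑ j ∈ s, p j : ℕ) ^ 2 + (∑ j ∈ s, p j ^ 2 : ℕ) - 2 * (∑ j ∈ s, p j * d j : ℕ)) + ∑ j ∈ s, f j := by
    rw [← a]
    push_cast
    simp only [mul_sum, ← sum_sub_distrib, ← sum_add_distrib]
    refine sum_congr rfl fun j _ => ?_
    rw [hf]
    rcases le_total (ct s p σ j : ℤ) (d j) with h | h
    · rw [max_eq_left (by linarith), max_eq_right (by linarith), abs_of_nonpos (by linarith)]; split_ifs <;> ring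
    · rw [max_eq_right (by linarith), max_eq_left (by linarith), abs_of_nonneg (by linarith)]; split_ifs <;> ring
  have c : (∀ j ∈ s, if pin j then ct s p σ j = d j else d j ≤ ct s p σ j) →
      ∑ j ∈ s, f j = ∑ j ∈ s, (if pin j then 0 else (ε j : ℤ) * (ct s p σ j - d j)) := fun h =>
    sum_congr rfl fun j hj => by
      have := h j hj
      rw [hf]
      split_ifs at this ⊢
      · simp [this]
      · rw [max_eq_left (by omega), max_eq_right (by omega)]; ring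
  rw [b, add_le_add_iff_left]
  refine ⟨fun h => ?_, fun h => (c h.1).trans_le h.2⟩
  have e : ∀ j ∈ s, if pin j then ct s p σ j = d j else d j ≤ ct s p σ j := fun j hj => by
    have := single_le_sum (f := f) (fun j _ => by rw [hf]; split_ifs <;> positivity) hj
    have q : (1 : ℤ) ≤ p j := by exact_mod_cast hp j hj
    have m : (0 : ℤ) ≤ M := Nat.cast_nonneg _
    have r : ∀ x : ℤ, 1 ≤ x → (M : ℤ) ≤ 2 * M * p j * x := fun x hx => by
      nlinarith [mul_le_mul q hx zero_le_one (by linarith)]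
    rw [hf] at this
    split_ifs at this ⊢ <;> by_contra c
    · linarith [r _ (Int.one_le_abs (show (ct s p σ j : ℤ) - d j ≠ 0 by omega))]
    · have := r (max 0 ((d j : ℤ) - ct s p σ j)) (by omega)
      have : 0 ≤ (ε j : ℤ) * max 0 ((ct s p σ j : ℤ) - d j) := by positivity
      linarith
  exact ⟨e, (c e).symm.trans_le h⟩

theorem tile {C : J → ℕ} (h1 : ∀ j ∈ s, p j ≤ C j ∧ C j ≤ ∑ i ∈ s, p i) (hp : ∀ j ∈ s, 1 ≤ p j)
    (h2 : ∀ i ∈ s, ∀ j ∈ s, i ≠ j → C i + p j ≤ C j ∨ C j + p i ≤ C i) : ∀ j ∈ s, ct s p C j = C j := fun j hj => by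
  classical
  have k : ∀ (t : Finset J) a b, t ⊆ s → (∀ i ∈ t, a + p i ≤ C i ∧ C i ≤ b) → ∑ i ∈ t, p i ≤ b - a := fun t a b ht h => by
    rw [← Nat.card_Ioc, sum_congr rfl fun i hi => (show p i = #(Ioc (C i - p i) (C i)) by
      have := h i hi; rw [Nat.card_Ioc]; omega), ← card_biUnion fun x hx y hy e => by
        have := h2 x (ht hx) y (ht hy) e
        simp only [disjoint_left, mem_Ioc]
        omega]
    refine card_le_card fun x hx => ?_
    obtain ⟨i, hi, hx⟩ := mem_biUnion.1 hx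
    have := h i hi
    simp only [mem_Ioc] at hx ⊢
    omega
  have a := k {i ∈ s | C i ≤ C j} 0 (C j) (filter_subset _ _) fun i hi => by
    have := h1 i (mem_filter.1 hi).1
    have := (mem_filter.1 hi).2
    omega
  have b := k {i ∈ s | ¬C i ≤ C j} (C j) (∑ i ∈ s, p i) (filter_subset _ _) fun i hi => by
    obtain ⟨q, r⟩ := mem_filter.1 hi
    have := h1 i q
    have := h2 i q j hj (by rintro rfl; omega)
    have := hp j hj
    omega
  have := sum_filter_add_sum_filter_not s (fun i => C i ≤ C j) p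
  have := h1 j hj
  unfold ct
  omega

theorem perm_iff {N : ℕ} (P : (Fin N → Fin N → Prop) → Prop) : (∃ σ : Equiv.Perm (Fin N), P fun i j => σ i ≤ σ j) ↔
    ∃ σ : ℕ → ℕ, Set.InjOn σ (range N) ∧ P fun i j => σ i ≤ σ j := by
  constructor
  · rintro ⟨σ, h⟩
    refine ⟨fun i => if h : i < N then σ ⟨i, h⟩ else 0, fun i hi j hj e => ?_, by simpa using h⟩
    simp only [coe_range, Set.mem_Iio] at hi hj
    simp only [hi, hj, dif_pos] at e
    exact congrArg Fin.val (σ.injective (Fin.ext e))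
  · rintro ⟨σ, hσ, h⟩
    have m : StrictMono ((fun i : Fin N => σ i) ∘ Tuple.sort fun i : Fin N => σ i) :=
      (Tuple.monotone_sort _).strictMono_of_injective
        ((show Function.Injective fun i : Fin N => σ i from fun i j e => Fin.ext (hσ (by simp) (by simp) e)).comp
          (Equiv.injective _))
    refine ⟨(Tuple.sort fun i : Fin N => σ i).symm, ?_⟩
    convert h using 3 with i j
    rw [← m.le_iff_le]
    simp

/-- a finite set whose sizes add up to a uniquely representable number -/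
theorem decomp [Inhabited J] {Z z : Finset ℕ} (hz : z ⊆ Z) (hs : ∀ j ∈ s, p j ∈ Z)
    (h : ∀ c : ℕ → ℕ, ∑ x ∈ Z, c x * x = ∑ j ∈ s, p j → ∀ x ∈ Z, c x = if x ∈ z then 1 else 0) :
    ∃ f : ℕ → J, (∀ x ∈ z, f x ∈ s ∧ p (f x) = x) ∧ ∀ v : J → ℤ, ∑ j ∈ s, v j = ∑ x ∈ z, v (f x) := by
  classical
  have a := h (fun x => #{j ∈ s | p j = x}) (by
    rw [← sum_fiberwise_of_maps_to hs]
    exact sum_congr rfl fun x _ => (sum_const_nat fun j hj => (mem_filter.1 hj).2).symm)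
  have b : ∀ x, ∃ j, x ∈ z → {j ∈ s | p j = x} = {j} := fun x => by
    by_cases c : x ∈ z
    · exact (card_eq_one.1 (by rw [a x (hz c), if_pos c])).imp fun _ h _ => h
    · exact ⟨default, fun h => absurd h c⟩
  choose f hf using b
  refine ⟨f, fun x hx => mem_filter.1 (hf x hx ▸ mem_singleton_self _), fun v => ?_⟩
  rw [← sum_fiberwise_of_maps_to hs, ← sum_subset hz fun x hx c => by
    rw [card_eq_zero.1 ((a x hx).trans (if_neg c)), sum_empty]]
  exact sum_congr rfl fun x hx => by rw [hf x hx, sum_singleton]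

set_option synthInstance.maxSize 4000 in
theorem key : ∀ a < 7, ∀ b < 5, ∀ c < 4, ∀ d < 4, ∀ e < 4, ∀ f < 4,
    ∀ x ∈ [(1, 1, 1, 0, 0, 0), (1, 1, 1, 1, 0, 0), (1, 1, 1, 0, 1, 0), (1, 1, 1, 0, 0, 1), (1, 1, 0, 0, 0, 0), (1, 0, 1, 0, 0, 0),
      (0, 0, 0, 1, 1, 1)], a * 26 + (b * 39 + (c * 44 + (d * 48 + (e * 50 + f * 51)))) = x.1 * 26 + (x.2.1 * 39 +
        (x.2.2.1 * 44 + (x.2.2.2.1 * 48 + (x.2.2.2.2.1 * 50 + x.2.2.2.2.2 * 51)))) → (a, b, c, d, e, f) = x := by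
  have : ((List.range 7).all fun a => (List.range 5).all fun b => (List.range 4).all fun c => (List.range 4).all fun d =>
    (List.range 4).all fun e => (List.range 4).all fun f => [(1, 1, 1, 0, 0, 0), (1, 1, 1, 1, 0, 0), (1, 1, 1, 0, 1, 0),
      (1, 1, 1, 0, 0, 1), (1, 1, 0, 0, 0, 0), (1, 0, 1, 0, 0, 0), (0, 0, 0, 1, 1, 1)].all fun x => decide (a * 26 + (b * 39 +
        (c * 44 + (d * 48 + (e * 50 + f * 51)))) = x.1 * 26 + (x.2.1 * 39 + (x.2.2.1 * 44 + (x.2.2.2.1 * 48 +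
          (x.2.2.2.2.1 * 50 + x.2.2.2.2.2 * 51)))) → (a, b, c, d, e, f) = x)) = true := by decide +kernel
  simpa only [List.all_eq_true, List.mem_range, decide_eq_true_eq] using this

theorem uniq (z : Finset ℕ) (h : z ∈ ([{26, 39, 44}, {26, 39, 44, 48}, {26, 39, 44, 50}, {26, 39, 44, 51}, {26, 39}, {26, 44},
    {48, 50, 51}] : List (Finset ℕ))) (n : ℕ → ℕ) (e : ∑ x ∈ {26, 39, 44, 48, 50, 51}, n x * x = ∑ x ∈ z, x) :
    ∀ x ∈ ({26, 39, 44, 48, 50, 51} : Finset ℕ), n x = if x ∈ z then 1 else 0 := by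
  have a : ∑ x ∈ z, x ≤ 160 := by clear e; revert z; decide
  norm_num at e
  have := key (n 26) (by omega) (n 39) (by omega) (n 44) (by omega) (n 48) (by omega) (n 50) (by omega) (n 51) (by omega)
  simp only [List.forall_mem_cons, Prod.mk.injEq, e] at this
  obtain ⟨a1, a2, a3, a4, a5, a6, a7, -⟩ := this
  simp only [List.mem_cons, List.not_mem_nil, or_false] at h
  rcases h with rfl | rfl | rfl | rfl | rfl | rfl | rfl
  exacts [by simp [a1 rfl], by simp [a2 rfl], by simp [a3 rfl], by simp [a4 rfl], by simp [a5 rfl], by simp [a6 rfl],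
    by simp [a7 rfl]]

end Pool.Agent.H.MP_9ce56d_lc
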