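import Pool.Agent.H.MP_9ce56d_lc.A
import Pool.Agent.Lib.lead.CXSat

/-! The jobs of the reduction. -/

namespace Pool.Agent.H.MP_9ce56d_lc

open Finset Pool.Agent.Lib.CX

theorem regV {a b c xA xB xC xU : ℕ} {δA δB δC δU ZA ZC W W' E : ℤ} {A0 A1 B0 B1 C0 C1 : Prop} (hb : 26 < b)
    (ha : a = 0 ∨ 26 < a) (hc : c = 0 ∨ 26 < c) (zA : a = 0 → c = 0 ∧ δA = 0 ∧ A0 ∧ A1) (zC : c = 0 → δC = 0 ∧ C0 ∧ C1)
    (pA : a ≠ 0 → xA + a ≤ 26 + (a + c + b) ∧ (xA + a ≤ xB ∨ xB + b ≤ xA) ∧ (xA + a ≤ xU ∨ xU + 26 ≤ xA))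
    (pC : c ≠ 0 → xC + c ≤ 26 + (a + c + b) ∧ (xC + c ≤ xB ∨ xB + b ≤ xC) ∧ (xC + c ≤ xU ∨ xU + 26 ≤ xC) ∧
      (xC + c ≤ xA ∨ xA + a ≤ xC))
    (pB : xB + b ≤ 26 + (a + c + b) ∧ xU + 26 ≤ 26 + (a + c + b) ∧ (xB + b ≤ xU ∨ xU + 26 ≤ xB))
    (dA : a ≠ 0 → W' + W + W < ZA ∧ (δA ≤ -ZA ∨ δA = 0 ∧ (xA = 0 ∧ A0 ∨ xA = 26 ∧ A1)))
    (dC : c ≠ 0 → W + W < ZC ∧ δC ≤ W' ∧ (xC < a ∨ δC ≤ -ZC ∨ δC = 0 ∧ (xC = a ∧ C0 ∨ xC = 26 + a ∧ C1)))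
    (dB : (xB = a + c → δB < 0 ∨ δB = 0 ∧ B0) ∧ (xB = a + c + 26 → δB < -(E * (a + c + b)) ∨ δB = -(E * (a + c + b)) ∧ B1))
    (dU : δU ≤ E * (a + c + b - xU)) (hE : 0 < E) (wB : δB ≤ W) (wU : δU ≤ W) (w0 : 0 ≤ W') :
    δA + δC + δB + δU ≤ 0 ∧ (0 ≤ δA + δC + δB + δU → A0 ∧ C0 ∧ B0 ∨ A1 ∧ C1 ∧ B1) := by
  have wC : δC ≤ W' := if q : c = 0 then (zC q).1.trans_le w0 else (dC q).2.1
  by_cases c1 : a ≠ 0 ∧ δA ≤ -ZA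
  · have := (dA c1.1).1
    exact ⟨by linarith [c1.2], fun h => by linarith [c1.2]⟩
  have z : a = 0 → c = 0 := fun w => (zA w).1
  have a1 : δA = 0 ∧ (a = 0 ∨ xA = 0 ∨ xA = 26) ∧ (a = 0 ∨ xA = 0 → A0) ∧ (a = 0 ∨ xA = 26 → A1) := by
    by_cases q : a = 0
    · exact ⟨(zA q).2.1, .inl q, fun _ => (zA q).2.2.1, fun _ => (zA q).2.2.2⟩
    · obtain ⟨r, ⟨s, t⟩ | ⟨s, t⟩⟩ := (dA q).2.resolve_left fun w => c1 ⟨q, w⟩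
      exacts [⟨r, .inr (.inl s), fun _ => t, fun w => absurd (s.symm.trans (w.resolve_left q)) (by decide)⟩,
        ⟨r, .inr (.inr s), fun w => absurd (s.symm.trans (w.resolve_left q)) (by decide), fun _ => t⟩]
  obtain ⟨rfl, a1, a2, a3⟩ := a1
  by_cases c2 : c ≠ 0 ∧ δC ≤ -ZC
  · have := (dC c2.1).1
    exact ⟨by linarith [c2.2], fun h => by linarith [c2.2]⟩
  have b1 : δC = 0 ∧ (c = 0 ∨ xC = a ∨ xC = 26 + a) ∧ (c = 0 ∨ xC = a → C0) ∧ (c = 0 ∨ xC = 26 + a → C1) := by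
    by_cases q : c = 0
    · exact ⟨(zC q).1, .inl q, fun _ => (zC q).2.1, fun _ => (zC q).2.2⟩
    · have y : ¬xC < a := by
        clear zA zC dA dC dB dU a2 a3 c1 c2 wC wB wU
        omega
      obtain ⟨r, ⟨s, t⟩ | ⟨s, t⟩⟩ := ((dC q).2.2.resolve_left y).resolve_left fun w => c2 ⟨q, w⟩
      exacts [⟨r, .inr (.inl s), fun _ => t, fun w => absurd (s.symm.trans (w.resolve_left q)) (by simp)⟩,
        ⟨r, .inr (.inr s), fun w => absurd (s.symm.trans (w.resolve_left q)) (by simp), fun _ => t⟩]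
  obtain ⟨rfl, b1, b2, b3⟩ := b1
  have key : xB = a + c ∧ xU = a + c + b ∧ (a = 0 ∨ xA = 0) ∧ (c = 0 ∨ xC = a) ∨ xB = a + c + 26 ∧
      (xU = 0 ∧ (a = 0 ∨ xA = 26) ∧ (c = 0 ∨ xC = 26 + a) ∨ 0 < xU) := by
    clear zA zC dA dC dB dU a2 a3 b2 b3 c1 c2 wC wB wU
    omega
  clear zA zC dA dC pA pB pC c1 c2 ha hc a1 b1 z
  rcases key with ⟨k1, rfl, k2, k3⟩ | ⟨k1, ⟨rfl, k2, k3⟩ | k2⟩
  · simp only [Nat.cast_add, sub_self, mul_zero] at dU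
    rcases dB.1 k1 with q | q
    exacts [⟨by linarith, fun _ => by linarith⟩, ⟨by linarith [q.1], fun _ => .inl ⟨a2 k2, b2 k3, q.2⟩⟩]
  · simp only [Nat.cast_zero, sub_zero] at dU
    rcases dB.2 k1 with q | q
    exacts [⟨by linarith, fun _ => by linarith⟩, ⟨by linarith [q.1], fun _ => .inr ⟨a3 k2, b3 k3, q.2⟩⟩]
  · have := mul_pos hE (show (0 : ℤ) < xU by exact_mod_cast k2)
    rw [mul_sub] at dU
    have := ((dB.2 k1).imp_right And.left).elim le_of_lt le_of_eq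
    exact ⟨by linarith, fun _ => by linarith⟩

theorem regC {x0 x1 x2 : ℕ} {δ0 δ1 δ2 β : ℤ} {I0 I1 I2 J0 J1 J2 : Prop} (p : x0 + 48 ≤ 149 ∧ x1 + 50 ≤ 149 ∧ x2 + 51 ≤ 149 ∧
    (x0 + 48 ≤ x1 ∨ x1 + 50 ≤ x0) ∧ (x0 + 48 ≤ x2 ∨ x2 + 51 ≤ x0) ∧ (x1 + 50 ≤ x2 ∨ x2 + 51 ≤ x1))
    (h0 : (x0 = 0 → δ0 < β ∨ δ0 = β ∧ J0) ∧ (x0 ≠ 0 → δ0 < 0 ∨ δ0 = 0 ∧ I0))
    (h1 : (x1 = 0 → δ1 < β ∨ δ1 = β ∧ J1) ∧ (x1 ≠ 0 → δ1 < 0 ∨ δ1 = 0 ∧ I1))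
    (h2 : (x2 = 0 → δ2 < β ∨ δ2 = β ∧ J2) ∧ (x2 ≠ 0 → δ2 < 0 ∨ δ2 = 0 ∧ I2)) :
    48 * x0 + 50 * x1 + 51 * x2 = 7398 ∧ δ0 + δ1 + δ2 ≤ β ∧
      (β ≤ δ0 + δ1 + δ2 → J0 ∧ I1 ∧ I2 ∨ I0 ∧ J1 ∧ I2 ∨ I0 ∧ I1 ∧ J2) := by
  have : x0 = 0 ∧ x1 ≠ 0 ∧ x2 ≠ 0 ∨ x0 ≠ 0 ∧ x1 = 0 ∧ x2 ≠ 0 ∨ x0 ≠ 0 ∧ x1 ≠ 0 ∧ x2 = 0 := by clear h0 h1 h2; omega
  refine ⟨by clear h0 h1 h2; omega, ?_⟩
  rcases this with ⟨a, b, c⟩ | ⟨a, b, c⟩ | ⟨a, b, c⟩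
  · rcases h0.1 a with a | a <;> rcases h1.2 b with b | b <;> rcases h2.2 c with c | c <;>
      first | exact ⟨by omega, fun _ => .inl ⟨a.2, b.2, c.2⟩⟩ | exact ⟨by omega, by omega⟩
  · rcases h0.2 a with a | a <;> rcases h1.1 b with b | b <;> rcases h2.2 c with c | c <;>
      first | exact ⟨by omega, fun _ => .inr (.inl ⟨a.2, b.2, c.2⟩)⟩ | exact ⟨by omega, by omega⟩
  · rcases h0.2 a with a | a <;> rcases h1.2 b with b | b <;> rcases h2.1 c with c | c <;>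
      first | exact ⟨by omega, fun _ => .inr (.inr ⟨a.2, b.2, c.2⟩)⟩ | exact ⟨by omega, by omega⟩

variable (φ : List (T3 ℕ))

def vr (ρ k : ℕ) : ℕ := if ρ % 2 = 0 then k else 3 * φ.length - 1 - k
def va (ρ q : ℕ) : ℕ := if q = 0 then (φ.getD ρ (0, 0, 0)).1 else if q = 1 then (φ.getD ρ (0, 0, 0)).2.1 else
  (φ.getD ρ (0, 0, 0)).2.2
def cq (ρ k : ℕ) : ℕ := if ρ < φ.length then if vr φ ρ k = va φ ρ 0 then 0 else if vr φ ρ k = va φ ρ 1 then 1 else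
  if vr φ ρ k = va φ ρ 2 then 2 else 3 else 3
def cs (q : ℕ) : ℕ := if q = 0 then 48 else if q = 1 then 50 else if q = 2 then 51 else 0
def sb (ρ : ℕ) : ℕ := if ρ % 2 = 0 then 44 else 39
def sa (ρ : ℕ) : ℕ := if ρ < φ.length then sb (ρ + 1) else 0
def ss (ρ k : ℕ) : ℕ := sa φ ρ + cs (cq φ ρ k) + sb ρ
def ix (ρ k : ℕ) : ℕ := k + (3 * φ.length + 1) * ρ
def st (ρ k : ℕ) : ℕ := if ρ = 0 then k else ix φ (ρ - 1) (3 * φ.length - 1 - k)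
def s1 (ρ k : ℕ) : ℕ := st φ ρ k * 170 + if ρ = 0 then 1 else 26 + sb ρ
def t0 (ρ k : ℕ) : ℕ := ix φ ρ k * 170 + ss φ ρ k
def ex (ρ k : ℕ) : ℕ := if ρ = 0 then 0 else 2 * st φ ρ k + 2
def gg (ρ k : ℕ) : ℕ := if ρ = 0 then 1 else t0 φ ρ k + 1 - s1 φ ρ k
def bb : ℕ := (φ.length + 1) * (3 * φ.length + 1) * 170 + 200
def zz (e : ℕ) : ℕ := (bb φ ^ 7) ^ min e (bb φ)
def eB (ρ k : ℕ) : ℕ := ss φ ρ k * gg φ ρ k * zz φ (ex φ ρ k)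
def dB (ρ k : ℕ) : ℕ := if ρ = 0 then 0 else ss φ ρ k * 26 * zz φ (ex φ ρ k)
def eU (ρ k : ℕ) : ℕ := 26 * zz φ (ex φ ρ k) * (gg φ ρ k + if ρ = 0 then 0 else 1)
def sC (ρ q : ℕ) : ℕ := ix φ ρ (vr φ ρ (va φ ρ q)) * 170 + (26 + sa φ ρ + cs q)
def gc (ρ q : ℕ) : ℕ := ix φ ρ (3 * φ.length) * 170 + cs q - sC φ ρ q
def hh (ρ : ℕ) : ℕ := gc φ ρ 0 * gc φ ρ 1 * gc φ ρ 2
def eC (ρ q : ℕ) : ℕ := hh φ ρ * zz φ (2 * ix φ ρ 0 + 1) * cs q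
def dC (ρ q : ℕ) : ℕ := gc φ ρ ((q + 1) % 3) * gc φ ρ ((q + 2) % 3) * (zz φ (2 * ix φ ρ 0 + 1) * cs q * 26 - 1)
abbrev pin (j : ℕ × ℕ × ℕ) : Prop := j.2.2 = 0 ∨ j.2.1 < 3 * φ.length ∧ (j.2.2 = 2 ∧ φ.length ≤ j.1 ∨
  j.2.2 = 4 ∧ cq φ j.1 j.2.1 = 3) ∨ 3 * φ.length ≤ j.2.1 ∧ (j.2.2 = 1 ∨ φ.length ≤ j.1)
def ll (ρ k : ℕ) : ℕ := if k < 3 * φ.length then 26 + ss φ ρ k else if ρ < φ.length then 149 else 0
def nf (ρ k : ℕ) : ℕ := if k < 3 * φ.length then if ρ < φ.length then if cq φ ρ k = 3 then 1 else 0 else 2 else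
  if ρ < φ.length then 1 else 4
def pj (j : ℕ × ℕ × ℕ) : ℕ := if j.2.2 = 0 then 170 - ll φ j.1 j.2.1 - nf φ j.1 j.2.1 else if pin φ j then 1 else
  if j.2.1 < 3 * φ.length then if j.2.2 = 1 then 26 else if j.2.2 = 2 then sa φ j.1 else if j.2.2 = 3 then sb j.1 else
    cs (cq φ j.1 j.2.1) else cs (j.2.2 - 2)
def dj (j : ℕ × ℕ × ℕ) : ℕ := if j.2.2 = 0 then ix φ j.1 j.2.1 * 170 + 170 else if pin φ j then
  ix φ j.1 j.2.1 * 170 + ll φ j.1 j.2.1 + if j.2.1 < 3 * φ.length then if j.1 < φ.length then 1 else j.2.2 / 2 else j.2.2 else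
  if j.2.1 < 3 * φ.length then if j.2.2 = 3 then s1 φ j.1 j.2.1 else ix φ j.1 j.2.1 * 170 + 1 else sC φ j.1 (j.2.2 - 2)
def ej (j : ℕ × ℕ × ℕ) : ℕ := if j.2.1 < 3 * φ.length then if j.2.2 = 1 then eU φ j.1 j.2.1 else if j.2.2 = 2 then
  eB φ (j.1 + 1) (3 * φ.length - 1 - j.2.1) else if j.2.2 = 3 then eB φ j.1 j.2.1 + dB φ j.1 j.2.1 else
    eC φ j.1 (cq φ j.1 j.2.1) else eC φ j.1 (j.2.2 - 2) + dC φ j.1 (j.2.2 - 2)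
def aj (j : ℕ × ℕ × ℕ) : ℕ := if j.2.1 < 3 * φ.length then if j.2.2 = 1 then eU φ j.1 j.2.1 * (ix φ j.1 j.2.1 * 170 + 170)
  else if j.2.2 = 2 then eB φ (j.1 + 1) (3 * φ.length - 1 - j.2.1) * (ix φ (j.1 + 1) (3 * φ.length - 1 - j.2.1) * 170 + 170)
  else if j.2.2 = 3 then eB φ j.1 j.2.1 * (ix φ j.1 j.2.1 * 170 + 170) + dB φ j.1 j.2.1 * (t0 φ j.1 j.2.1 + 1) else
    eC φ j.1 (cq φ j.1 j.2.1) * (ix φ j.1 (3 * φ.length) * 170 + 170) else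
  eC φ j.1 (j.2.2 - 2) * (ix φ j.1 (3 * φ.length) * 170 + 170) + hh φ j.1 +
    dC φ j.1 (j.2.2 - 2) * (ix φ j.1 (3 * φ.length) * 170 + cs (j.2.2 - 2))
/-- value of a job at a completion time -/
def val (j : ℕ × ℕ × ℕ) (C : ℕ) : ℤ := aj φ j - ej φ j * C
/-- reference value of a slot -/
def ref (j : ℕ × ℕ × ℕ) : ℤ := if j.2.1 < 3 * φ.length then val φ j (ix φ j.1 j.2.1 * 170 + if j.2.2 = 1 then
  26 + ss φ j.1 j.2.1 else if j.2.2 = 2 then sa φ j.1 else if j.2.2 = 3 then ss φ j.1 j.2.1 else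
    sa φ j.1 + cs (cq φ j.1 j.2.1)) else if j.2.2 = 2 then eC φ j.1 0 * 122 + hh φ j.1 else if j.2.2 = 3 then
      eC φ j.1 1 * 72 else eC φ j.1 2 * 21
def jobs : Finset (ℕ × ℕ × ℕ) := range (φ.length + 1) ×ˢ range (3 * φ.length + 1) ×ˢ range 5

variable {φ} {ρ k q : ℕ}

theorem mem_jobs {j} : j ∈ jobs φ ↔ j.1 ≤ φ.length ∧ j.2.1 ≤ 3 * φ.length ∧ j.2.2 ≤ 4 := by
  simp [jobs, Nat.lt_succ_iff]

theorem ix_succ (ρ k) : ix φ (ρ + 1) k = ix φ ρ k + (3 * φ.length + 1) := by unfold ix; ring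

theorem ix_eq (ρ k) : ix φ ρ k = ix φ ρ 0 + k := by unfold ix; ring

theorem ix_mono {ρ ρ'} (h : ρ ≤ ρ') : ix φ ρ 0 ≤ ix φ ρ' 0 := by unfold ix; gcongr

theorem ix_lt {ρ ρ'} (h : ρ < ρ') : ix φ ρ 0 + (3 * φ.length + 1) ≤ ix φ ρ' 0 := (ix_succ _ _).ge.trans (ix_mono h)

theorem ix_bb (h : ρ ≤ φ.length) : (ix φ ρ 0 + 3 * φ.length + 1) * 170 + 200 ≤ bb φ := by
  have := ix_mono (φ := φ) h
  have : ix φ φ.length 0 + 3 * φ.length + 1 = (φ.length + 1) * (3 * φ.length + 1) := by unfold ix; ring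
  unfold bb
  omega

theorem ix_inj {ρ ρ' k k'} (h : ix φ ρ k = ix φ ρ' k') (a : k ≤ 3 * φ.length) (b : k' ≤ 3 * φ.length) : ρ = ρ' ∧ k = k' := by
  rw [ix_eq, ix_eq ρ'] at h
  rcases lt_trichotomy ρ ρ' with c | rfl | c
  exacts [by have := ix_lt (φ := φ) c; omega, by omega, by have := ix_lt (φ := φ) c; omega]

theorem sb_eq (ρ) : sb ρ = 44 ∧ sb (ρ + 1) = 39 ∧ ρ % 2 = 0 ∨ sb ρ = 39 ∧ sb (ρ + 1) = 44 ∧ ρ % 2 = 1 := by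
  unfold sb; split_ifs <;> omega

theorem sa_eq (ρ) : sa φ ρ = sb (ρ + 1) ∧ ρ < φ.length ∨ sa φ ρ = 0 ∧ φ.length ≤ ρ := by unfold sa; split_ifs <;> omega

theorem cq_eq (ρ k) : cq φ ρ k = 3 ∧ cs (cq φ ρ k) = 0 ∨ ρ < φ.length ∧ vr φ ρ k = va φ ρ (cq φ ρ k) ∧
    (cq φ ρ k = 0 ∧ cs (cq φ ρ k) = 48 ∨ cq φ ρ k = 1 ∧ cs (cq φ ρ k) = 50 ∨ cq φ ρ k = 2 ∧ cs (cq φ ρ k) = 51) := by
  unfold cq; split_ifs <;> simp [cs, *]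

theorem ss_le (ρ k) : 39 ≤ ss φ ρ k ∧ ss φ ρ k ≤ 134 := by
  have := sb_eq ρ
  have := sa_eq (φ := φ) ρ
  have := cq_eq (φ := φ) ρ k
  unfold ss
  omega

theorem st_zero (k) : st φ 0 k = ix φ 0 k := by simp [st, ix]

theorem st_succ (ρ k) : st φ (ρ + 1) k = ix φ ρ (3 * φ.length - 1 - k) := by simp [st]

theorem vr_vr (h : k < 3 * φ.length) : vr φ ρ k < 3 * φ.length ∧ vr φ ρ (vr φ ρ k) = k ∧
    vr φ (ρ + 1) (3 * φ.length - 1 - k) = vr φ ρ k := by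
  unfold vr; split_ifs <;> omega

theorem bb_ge : 200 ≤ bb φ := Nat.le_add_left _ _

theorem zz_pos (e) : 1 ≤ zz φ e := Nat.one_le_pow _ _ (Nat.one_le_pow _ _ (by have := bb_ge (φ := φ); omega))

theorem zz_lt {e e'} (h : e < e') (h' : e' ≤ bb φ) : bb φ * (bb φ ^ 6 * zz φ e) ≤ zz φ e' := by
  have := bb_ge (φ := φ)
  rw [zz, zz, min_eq_left h', min_eq_left (by omega), ← mul_assoc, ← pow_succ', ← pow_succ']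
  exact Nat.pow_le_pow_right (by positivity) h

theorem gg_eq (h : ρ ≤ φ.length) (hk : k < 3 * φ.length) : 1 ≤ gg φ ρ k ∧ gg φ ρ k ≤ bb φ ∧
    (ρ ≠ 0 → s1 φ ρ k + gg φ ρ k = t0 φ ρ k + 1) := by
  have := bb_ge (φ := φ)
  rcases ρ with _ | ρ
  · simp [gg]; omega
  have := ix_bb h
  have := ss_le (φ := φ) (ρ + 1) k
  have := sb_eq (ρ + 1)
  simp only [gg, s1, t0, st_succ, Nat.add_one_ne_zero, if_false, ix_eq _ k, ix_eq _ (_ - _), ix_succ] at *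
  omega

theorem eB_le (h : ρ ≤ φ.length) (hk : k < 3 * φ.length) : zz φ (ex φ ρ k) ≤ eB φ ρ k ∧
    (eB φ ρ k + dB φ ρ k) * bb φ ≤ bb φ ^ 6 * zz φ (ex φ ρ k) ∧ eU φ ρ k * bb φ ≤ bb φ ^ 6 * zz φ (ex φ ρ k) ∧
    0 < eU φ ρ k ∧ eU φ ρ k * ss φ ρ k = 26 * eB φ ρ k + dB φ ρ k ∧ (ρ = 0 → dB φ ρ k = 0) ∧
      (ρ ≠ 0 → 0 < dB φ ρ k ∧ dB φ ρ k * gg φ ρ k = 26 * eB φ ρ k) := by
  obtain ⟨a, b, -⟩ := gg_eq h hk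
  obtain ⟨c, d⟩ := ss_le (φ := φ) ρ k
  have e := zz_pos (φ := φ) (ex φ ρ k)
  have f := bb_ge (φ := φ)
  have g : dB φ ρ k ≤ bb φ * bb φ * zz φ (ex φ ρ k) := by unfold dB; split_ifs; exacts [Nat.zero_le _, by gcongr <;> omega]
  have i : eB φ ρ k ≤ bb φ * bb φ * zz φ (ex φ ρ k) := by unfold eB; gcongr; omega
  have j : eU φ ρ k ≤ bb φ * zz φ (ex φ ρ k) * (bb φ * bb φ) := by
    unfold eU; gcongr
    · omega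
    · split_ifs <;> nlinarith
  have l : 2 ≤ bb φ ^ 3 := le_trans (by omega) (Nat.le_self_pow (by omega) _)
  have l' : 1 ≤ bb φ ^ 2 := Nat.one_le_pow _ _ (by omega)
  refine ⟨?_, ?_, ?_, by unfold eU; positivity, by unfold eU eB dB; split_ifs <;> ring, fun c => if_pos c, fun c => ?_⟩
  · exact Nat.le_mul_of_pos_left _ (by positivity)
  · calc _ ≤ 2 * (bb φ * bb φ * zz φ (ex φ ρ k)) * bb φ := by gcongr; omega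
      _ ≤ bb φ ^ 3 * (bb φ * bb φ * zz φ (ex φ ρ k)) * bb φ := by gcongr
      _ = _ := by ring
  · calc _ ≤ 1 * (bb φ * zz φ (ex φ ρ k) * (bb φ * bb φ)) * bb φ := by gcongr; omega
      _ ≤ bb φ ^ 2 * (bb φ * zz φ (ex φ ρ k) * (bb φ * bb φ)) * bb φ := by gcongr
      _ = _ := by ring
  · rw [dB, if_neg c, eB]
    exact ⟨by positivity, by ring⟩

/-- the clauses have three distinct small variables -/
def Ok (φ : List (T3 ℕ)) : Prop := ∀ C ∈ φ, C.dist ∧ ∀ x ∈ C.vars, x < 3 * φ.length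

theorem va_ok (ho : Ok φ) (h : ρ < φ.length) : (∀ q, va φ ρ q < 3 * φ.length) ∧ ∀ q < 3, cq φ ρ (vr φ ρ (va φ ρ q)) = q := by
  obtain ⟨⟨a, b, c⟩, d⟩ := ho φ[ρ] (List.getElem_mem h)
  simp only [T3.vars, List.forall_mem_cons] at d
  have e : ∀ q, va φ ρ q < 3 * φ.length := fun q => by
    rw [va, List.getD_eq_getElem _ _ h]; split_ifs; exacts [d.1, d.2.1, d.2.2.1]
  refine ⟨e, fun q hq => ?_⟩
  rw [cq, if_pos h, (vr_vr (e q)).2.1]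
  simp only [va, List.getD_eq_getElem _ _ h]
  interval_cases q <;> simp [a.symm, b.symm, c.symm]

theorem cs_eq (h : q < 3) : q = 0 ∧ cs q = 48 ∨ q = 1 ∧ cs q = 50 ∨ q = 2 ∧ cs q = 51 := by interval_cases q <;> simp [cs]

theorem gc_eq (ho : Ok φ) (h : ρ < φ.length) (q) : 1 ≤ gc φ ρ q ∧ gc φ ρ q ≤ bb φ ∧
    sC φ ρ q + gc φ ρ q = ix φ ρ (3 * φ.length) * 170 + cs q := by
  have := (vr_vr (ρ := ρ) ((va_ok ho h).1 q)).1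
  have := ix_bb h.le
  have := sb_eq ρ
  have := sa_eq (φ := φ) ρ
  simp only [gc, sC, ix_eq _ (vr _ _ _), ix_eq _ (3 * _)]
  omega

theorem eC_le (ho : Ok φ) (h : ρ < φ.length) (hq : q < 3) : zz φ (2 * ix φ ρ 0 + 1) ≤ eC φ ρ q ∧
    eC φ ρ q * bb φ ≤ bb φ ^ 6 * zz φ (2 * ix φ ρ 0 + 1) ∧ 0 < hh φ ρ ∧ hh φ ρ < dC φ ρ q ∧
    hh φ ρ + dC φ ρ q * gc φ ρ q = 26 * eC φ ρ q := by
  have a := fun q => (gc_eq ho h q).1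
  have b := fun q => (gc_eq ho h q).2.1
  have c := cs_eq hq
  have f := bb_ge (φ := φ)
  have z : bb φ * (bb φ ^ 6 * zz φ 0) ≤ zz φ (2 * ix φ ρ 0 + 1) := zz_lt (by omega) (by have := ix_bb h.le; omega)
  have z' : bb φ ≤ zz φ (2 * ix φ ρ 0 + 1) :=
    (Nat.le_mul_of_pos_right _ (mul_pos (by positivity) (zz_pos _))).trans z
  have e : hh φ ρ = gc φ ρ ((q + 1) % 3) * gc φ ρ ((q + 2) % 3) * gc φ ρ q := by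
    unfold hh; interval_cases q <;> simp <;> ring
  have p : 0 < hh φ ρ := mul_pos (mul_pos (a _) (a _)) (a _)
  have r : bb φ * 48 ≤ zz φ (2 * ix φ ρ 0 + 1) * cs q := Nat.mul_le_mul z' (by omega)
  refine ⟨?_, ?_, p, ?_, ?_⟩
  · rw [eC, mul_right_comm]
    exact Nat.le_mul_of_pos_left _ (mul_pos p (by omega))
  · calc _ ≤ bb φ * bb φ * bb φ * zz φ (2 * ix φ ρ 0 + 1) * (bb φ * bb φ) * bb φ := by
          unfold eC hh; gcongr; exacts [b _, b _, b _, le_trans (by omega) (Nat.le_mul_self _)]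
      _ = _ := by ring
  · rw [e, dC]
    exact Nat.mul_lt_mul_of_pos_left (by have := b q; omega) (mul_pos (a _) (a _))
  · obtain ⟨w, hw⟩ : ∃ w, zz φ (2 * ix φ ρ 0 + 1) * cs q * 26 = w + 1 := ⟨_, (Nat.sub_add_cancel (by omega)).symm⟩
    rw [dC, eC, hw, Nat.add_sub_cancel, mul_assoc (hh φ ρ), mul_comm 26, mul_assoc (hh φ ρ), hw, e]
    ring

end Pool.Agent.H.MP_9ce56d_lc
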