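import Pool.Agent.H.MP_9ce56d_lc.B

/-! Envelopes of the value lines. -/

namespace Pool.Agent.H.MP_9ce56d_lc

open Finset Pool.Agent.Lib.CX

variable {φ : List (T3 ℕ)} {ρ k q C : ℕ} {j : ℕ × ℕ × ℕ}

theorem cls (hj : j ∈ jobs φ) (np : ¬pin φ j) : ∃ ρ ≤ φ.length, (∃ k < 3 * φ.length, j = (ρ, k, 1) ∧ pj φ j = 26 ∨
    j = (ρ, k, 2) ∧ ρ < φ.length ∧ pj φ j = sb (ρ + 1) ∨ j = (ρ, k, 3) ∧ pj φ j = sb ρ ∨
    j = (ρ, k, 4) ∧ cq φ ρ k ≠ 3 ∧ pj φ j = cs (cq φ ρ k)) ∨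
    ρ < φ.length ∧ ∃ q < 3, j = (ρ, 3 * φ.length, q + 2) ∧ pj φ j = cs q := by
  obtain ⟨ρ, k, κ⟩ := j
  obtain ⟨a, b, c⟩ := mem_jobs.1 hj
  rw [pj, if_neg (fun h => np (.inl h)), if_neg np]
  simp only [pin] at *
  refine ⟨ρ, a, ?_⟩
  by_cases h : k < 3 * φ.length
  · refine .inl ⟨k, h, ?_⟩
    interval_cases κ
    · omega
    · simp [h]
    · simp [h, sa, show ρ < φ.length by omega]
    · simp [h]
    · simp [h, show cq φ ρ k ≠ 3 by omega]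
  · exact .inr ⟨by omega, κ - 2, by omega, by congr <;> omega, if_neg h⟩

theorem valU (h : k < 3 * φ.length) (C) : val φ (ρ, k, 1) C = eU φ ρ k * (ix φ ρ k * 170 + 170 - C) := by
  simp [val, aj, ej, h]; ring

theorem valA (h : k < 3 * φ.length) (C) : val φ (ρ, k, 2) C =
    eB φ (ρ + 1) (3 * φ.length - 1 - k) * (ix φ (ρ + 1) (3 * φ.length - 1 - k) * 170 + 170 - C) := by
  simp [val, aj, ej, h]; ring

theorem valB (h : k < 3 * φ.length) (C) : val φ (ρ, k, 3) C =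
    eB φ ρ k * (ix φ ρ k * 170 + 170 - C) + dB φ ρ k * (t0 φ ρ k + 1 - C) := by
  simp [val, aj, ej, h]; ring

theorem valC (h : k < 3 * φ.length) (C) : val φ (ρ, k, 4) C =
    eC φ ρ (cq φ ρ k) * (ix φ ρ (3 * φ.length) * 170 + 170 - C) := by
  simp [val, aj, ej, h]; ring

theorem valD (C) : val φ (ρ, 3 * φ.length, q + 2) C = eC φ ρ q * (ix φ ρ (3 * φ.length) * 170 + 170 - C) + hh φ ρ +
    dC φ ρ q * (ix φ ρ (3 * φ.length) * 170 + cs q - C) := by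
  simp [val, aj, ej]; ring

theorem djU (h : k < 3 * φ.length) : dj φ (ρ, k, 1) = ix φ ρ k * 170 + 1 := by simp [dj, pin, h, h.not_ge]

theorem djA (h : k < 3 * φ.length) (h' : ρ < φ.length) : dj φ (ρ, k, 2) = ix φ ρ k * 170 + 1 := by
  simp [dj, pin, h, h.not_ge, h'.not_ge]

theorem djB (h : k < 3 * φ.length) : dj φ (ρ, k, 3) = s1 φ ρ k := by simp [dj, pin, h, h.not_ge]

theorem djC (h : k < 3 * φ.length) (h' : cq φ ρ k ≠ 3) : dj φ (ρ, k, 4) = ix φ ρ k * 170 + 1 := by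
  simp [dj, pin, h, h.not_ge, h']

theorem djD (h : ρ < φ.length) : dj φ (ρ, 3 * φ.length, q + 2) = sC φ ρ q := by simp [dj, pin, h.not_ge]

theorem ex_le (h : ρ ≤ φ.length) (hk : k < 3 * φ.length) : ex φ ρ k < 2 * ix φ ρ 0 + 1 ∧ ex φ ρ k ≤ bb φ := by
  have := ix_bb h
  rcases ρ with _ | ρ
  · simp [ex]
  · simp only [ex, st_succ, ix_eq _ (_ - _), ix_succ, Nat.add_one_ne_zero, if_false] at *
    omega

theorem nest {ρ' k' r} (hk : k < 3 * φ.length) (hk' : k' < 3 * φ.length) (hp : sb ρ' = sb ρ) (hn : ¬(ρ' = ρ ∧ k' = k))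
    (hr : r = ix φ ρ k ∨ ρ ≠ 0 ∧ r = st φ ρ k) (h : st φ ρ' k' ≤ r) : ix φ ρ' k' < r ∨ ex φ ρ' k' < ex φ ρ k := by
  have := sb_eq ρ
  have := sb_eq ρ'
  rcases ρ with _ | ρ <;> rcases ρ' with _ | ρ' <;>
    simp only [ex, st_succ, st_zero, ix_eq _ (_ - _), ix_eq _ k, ix_eq _ k', ix_succ, Nat.add_one_ne_zero, if_false,
      if_true, ne_eq, not_true, false_and, or_false, not_false_eq_true, true_and] at *
  · omega
  · have := ix_lt (φ := φ) (show 0 < ρ' by omega)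
    omega
  · omega
  · rcases lt_trichotomy ρ ρ' with c | rfl | c
    · have := ix_lt (φ := φ) (show ρ + 1 < ρ' by omega)
      rw [ix_succ] at this
      omega
    · omega
    · have := ix_lt (φ := φ) c
      omega

theorem envT {r} (h : ρ ≤ φ.length) (hk : k < 3 * φ.length) (hr : r = ix φ ρ k ∨ ρ ≠ 0 ∧ r = st φ ρ k) (hj : j ∈ jobs φ)
    (np : ¬pin φ j) (hp : pj φ j = sb ρ) (hd : dj φ j ≤ C) (c1 : r * 170 < C) (c2 : C ≤ r * 170 + 170) :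
    j = (ρ, k, 3) ∨ (∃ ρ', ρ = ρ' + 1 ∧ j = (ρ', 3 * φ.length - 1 - k, 2)) ∨ val φ j C < zz φ (ex φ ρ k) := by
  have G : ∀ ρ' ≤ φ.length, ∀ k' < 3 * φ.length, sb ρ' = sb ρ → ¬(ρ' = ρ ∧ k' = k) → st φ ρ' k' * 170 < C →
      ∀ x : ℕ, x ≤ dB φ ρ' k' → eB φ ρ' k' * ((ix φ ρ' k' : ℤ) * 170 + 170 - C) + x * (t0 φ ρ' k' + 1 - C) <
        zz φ (ex φ ρ k) := fun ρ' h' k' hk' a b c x hx => by
    have z := zz_pos (φ := φ) (ex φ ρ k)
    have s := ss_le (φ := φ) ρ' k'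
    rcases nest hk hk' a b hr (by omega) with d | d
    · have := mul_nonpos_of_nonneg_of_nonpos (eB φ ρ' k').cast_nonneg
        (show (ix φ ρ' k' : ℤ) * 170 + 170 - C ≤ 0 by omega)
      have := mul_nonpos_of_nonneg_of_nonpos x.cast_nonneg (show (t0 φ ρ' k' : ℤ) + 1 - C ≤ 0 by unfold t0; omega)
      omega
    · have e1 := zz_lt d (ex_le h hk).2
      have e2 := (eB_le h' hk').2.1
      have e3 := ix_bb h'
      have e4 := zz_pos (φ := φ) (ex φ ρ' k')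
      have e5 := ix_eq (φ := φ) ρ' k'
      have := mul_le_mul_of_nonneg_left (show (ix φ ρ' k' : ℤ) * 170 + 170 - C ≤ bb φ by omega) (eB φ ρ' k').cast_nonneg
      have := mul_le_mul_of_nonneg_left (show (t0 φ ρ' k' : ℤ) + 1 - C ≤ bb φ by unfold t0; omega) x.cast_nonneg
      have := Nat.mul_le_mul_right (bb φ) hx
      have : 2 * (bb φ ^ 6 * zz φ (ex φ ρ' k')) ≤ _ := (Nat.mul_le_mul_right _ (by omega)).trans e1
      have : 0 < bb φ ^ 6 * zz φ (ex φ ρ' k') := mul_pos (pow_pos (by omega) _) e4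
      rw [add_mul] at e2
      omega
  have := sb_eq ρ
  obtain ⟨ρ', a, ⟨k', b, ⟨rfl, c⟩ | ⟨rfl, c, d⟩ | ⟨rfl, c⟩ | ⟨rfl, c, d⟩⟩ | ⟨b, q, c, rfl, d⟩⟩ := cls hj np
  · omega
  · by_cases e : ρ' + 1 = ρ ∧ 3 * φ.length - 1 - k' = k
    · exact .inr (.inl ⟨ρ', e.1.symm, by rw [← e.2, show 3 * φ.length - 1 - (3 * φ.length - 1 - k') = k' by clear G; omega]⟩)
    · rw [djA b c] at hd
      have := G _ c _ (by omega) (d.symm.trans hp) e (by
        rw [st_succ, show 3 * φ.length - 1 - (3 * φ.length - 1 - k') = k' by omega]; omega) 0 (Nat.zero_le _)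
      rw [valA b]
      exact .inr (.inr (by simpa using this))
  · by_cases e : ρ' = ρ ∧ k' = k
    · exact .inl (by rw [e.1, e.2])
    · rw [djB b, s1] at hd
      rw [valB b]
      exact .inr (.inr (G _ a _ b (c.symm.trans hp) e (by split_ifs at hd <;> omega) _ le_rfl))
  · have := cq_eq (φ := φ) ρ' k'
    omega
  · have := cs_eq c
    omega

theorem envU (hj : j ∈ jobs φ) (np : ¬pin φ j) (hp : pj φ j = 26) (hd : dj φ j ≤ C) (hk : k < 3 * φ.length)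
    (c1 : ix φ ρ k * 170 < C) (c2 : C ≤ ix φ ρ k * 170 + 170) : val φ j C ≤ eU φ ρ k * (ix φ ρ k * 170 + 170 - C) := by
  obtain ⟨ρ', a, ⟨k', b, ⟨rfl, c⟩ | ⟨rfl, c, d⟩ | ⟨rfl, c⟩ | ⟨rfl, c, d⟩⟩ | ⟨b, q, c, rfl, d⟩⟩ := cls hj np
  · rw [djU b] at hd
    rw [valU b]
    by_cases e : ix φ ρ' k' = ix φ ρ k
    · obtain ⟨rfl, rfl⟩ := ix_inj e b.le hk.le
      rfl
    · exact (mul_nonpos_of_nonneg_of_nonpos (Nat.cast_nonneg _) (by omega)).trans (mul_nonneg (Nat.cast_nonneg _) (by omega))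
  · have := sb_eq ρ'
    omega
  · have := sb_eq ρ'
    omega
  · have := cq_eq (φ := φ) ρ' k'
    omega
  · have := cs_eq c
    omega

theorem envC (ho : Ok φ) (hq : q < 3) (hj : j ∈ jobs φ) (np : ¬pin φ j) (hp : pj φ j = cs q) (hd : dj φ j ≤ C)
    (c1 : ix φ ρ 0 * 170 < C) (c2 : C ≤ ix φ ρ (3 * φ.length) * 170 + 170) :
    j = (ρ, vr φ ρ (va φ ρ q), 4) ∨ j = (ρ, 3 * φ.length, q + 2) ∨ val φ j C ≤ 0 := by
  have := cs_eq hq
  have G : ∀ ρ', ix φ ρ' 0 * 170 < C → ρ' = ρ ∨ (ix φ ρ' (3 * φ.length) : ℤ) * 170 + 170 < C := fun ρ' h => by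
    rw [ix_eq] at c2 ⊢
    rcases lt_trichotomy ρ ρ' with c | rfl | c
    exacts [by have := ix_lt (φ := φ) c; omega, .inl rfl, by have := ix_lt (φ := φ) c; omega]
  obtain ⟨ρ', a, ⟨k', b, ⟨rfl, c⟩ | ⟨rfl, c, d⟩ | ⟨rfl, c⟩ | ⟨rfl, c, d⟩⟩ | ⟨b, q', c, rfl, d⟩⟩ := cls hj np
  · omega
  · have := sb_eq ρ'
    omega
  · have := sb_eq ρ'
    omega
  · have e := cq_eq (φ := φ) ρ' k'
    rw [djC b c, ix_eq] at hd
    rcases G ρ' (by omega) with rfl | g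
    · refine .inl ?_
      rw [← show cq φ ρ' k' = q by omega, ← (e.resolve_left fun w => c w.1).2.1, (vr_vr b).2.1]
    · rw [valC b]
      exact .inr (.inr (mul_nonpos_of_nonneg_of_nonpos (Nat.cast_nonneg _) (by omega)))
  · have := cs_eq c
    obtain rfl : q' = q := by omega
    rw [djD b, sC, ix_eq] at hd
    rcases G ρ' (by omega) with rfl | g
    · exact .inr (.inl rfl)
    · rw [valD]
      have := (eC_le ho b c).2.2.2.1
      have := mul_nonpos_of_nonneg_of_nonpos (eC φ ρ' q').cast_nonneg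
        (show (ix φ ρ' (3 * φ.length) : ℤ) * 170 + 170 - C ≤ 0 by omega)
      have := mul_le_mul_of_nonneg_left (show (ix φ ρ' (3 * φ.length) : ℤ) * 170 + cs q' - C ≤ -1 by omega)
        (dC φ ρ' q').cast_nonneg
      omega

theorem ll_nf (ρ k) : ll φ ρ k + nf φ ρ k < 170 := by
  have := ss_le (φ := φ) ρ k
  unfold ll nf
  split_ifs <;> omega

theorem dj_pin {κ} (hj : κ < 5) (h : pin φ (ρ, k, κ)) :
    ix φ ρ k * 170 < dj φ (ρ, k, κ) ∧ dj φ (ρ, k, κ) ≤ ix φ ρ k * 170 + 170 := by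
  have := ss_le (φ := φ) ρ k
  rw [dj, if_pos h, ll]
  simp only [pin] at h ⊢
  split_ifs <;> omega

theorem pj_pos (hj : j ∈ jobs φ) : 1 ≤ pj φ j ∧ pj φ j ≤ 170 := by
  by_cases h : pin φ j
  · have := ll_nf (φ := φ) j.1 j.2.1
    rw [pj, if_pos h]
    split_ifs <;> omega
  · obtain ⟨ρ', a, ⟨k', b, ⟨rfl, c⟩ | ⟨rfl, c, d⟩ | ⟨rfl, c⟩ | ⟨rfl, c, d⟩⟩ | ⟨b, q', c, rfl, d⟩⟩ := cls hj h
    exacts [by omega, by have := sb_eq ρ'; omega, by have := sb_eq ρ'; omega, by have := cq_eq (φ := φ) ρ' k'; omega,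
      by have := cs_eq c; omega]

theorem sum5 (h : ρ ≤ φ.length) (hk : k ≤ 3 * φ.length) : ∑ κ ∈ range 5, pj φ (ρ, k, κ) = 170 ∧
    (∑ κ ∈ range 5, if pin φ (ρ, k, κ) then pj φ (ρ, k, κ) else 0) + ll φ ρ k = 170 := by
  have := ll_nf (φ := φ) ρ k
  have := cq_eq (φ := φ) ρ k
  have := sa_eq (φ := φ) ρ
  have : cs 0 = 48 ∧ cs 1 = 50 ∧ cs 2 = 51 := ⟨rfl, rfl, rfl⟩
  simp only [sum_range_succ, pj, pin, ll, nf, ss, ← not_lt] at *
  by_cases a : k < 3 * φ.length <;> by_cases b : ρ < φ.length <;> by_cases c : cq φ ρ k = 3 <;>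
    simp [a, b, c, -not_lt] at * <;> omega

theorem sum_jobs {β : Type} [AddCommMonoid β] (f : ℕ × ℕ × ℕ → β) : ∑ j ∈ jobs φ, f j =
    ∑ r ∈ range (φ.length + 1) ×ˢ range (3 * φ.length + 1), ∑ κ ∈ range 5, f (r.1, r.2, κ) := by
  simp only [jobs, sum_product]

theorem sum_pj : ∑ j ∈ jobs φ, pj φ j = (φ.length + 1) * (3 * φ.length + 1) * 170 := by
  rw [sum_jobs, sum_const_nat (m := 170) fun r hr => ?_, card_product, card_range, card_range]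
  simp only [mem_product, mem_range] at hr
  exact (sum5 (by omega) (by omega)).1

theorem pushA {x} (m : ρ < φ.length) (hk : k < 3 * φ.length) (hj : j ∈ jobs φ) (np : ¬pin φ j) (hp : pj φ j = sa φ ρ)
    (hd : dj φ j ≤ C) (c1 : C = ix φ ρ k * 170 + x + sa φ ρ) (c2 : x + sa φ ρ ≤ 160) :
    val φ j C - val φ (ρ, k, 2) (ix φ ρ k * 170 + sa φ ρ) ≤ -zz φ (2 * ix φ ρ k + 2) ∨
      val φ j C - val φ (ρ, k, 2) (ix φ ρ k * 170 + sa φ ρ) = 0 ∧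
        (x = 0 ∧ j = (ρ, k, 2) ∨ x = 26 ∧ j = (ρ + 1, 3 * φ.length - 1 - k, 3)) := by
  have k' : 3 * φ.length - 1 - k < 3 * φ.length := by omega
  have k'' : 3 * φ.length - 1 - (3 * φ.length - 1 - k) = k := by omega
  replace m : ρ + 1 ≤ φ.length := m
  have e1 : ex φ (ρ + 1) (3 * φ.length - 1 - k) = 2 * ix φ ρ k + 2 := by simp [ex, st_succ, k'']
  obtain ⟨E1, -, -, -, -, -, E2⟩ := eB_le m k'
  obtain ⟨E2, E3⟩ := E2 (by omega)
  have E4 := (gg_eq m k').2.2 (by omega)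
  have E7 : s1 φ (ρ + 1) (3 * φ.length - 1 - k) = ix φ ρ k * 170 + (26 + sa φ ρ) := by
    simp [s1, st_succ, k'', sa, Nat.lt_of_succ_le m]
  have E8 : sa φ ρ = sb (ρ + 1) := if_pos m
  have E9 : 0 < sa φ ρ := by have := sb_eq ρ; omega
  rw [e1] at E1
  have e0 := (eB φ (ρ + 1) (3 * φ.length - 1 - k)).cast_nonneg (α := ℤ)
  have d0 := (dB φ (ρ + 1) (3 * φ.length - 1 - k)).cast_nonneg (α := ℤ)
  rw [valA hk]
  rcases envT m k' (r := ix φ ρ k) (.inr ⟨by omega, by rw [st_succ, k'']⟩) hj np (hp.trans E8) hd (by omega) (by omega)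
    with rfl | ⟨ρ', r, e⟩ | e
  · rw [djB k'] at hd
    have : val φ (ρ + 1, 3 * φ.length - 1 - k, 3) C - eB φ (ρ + 1) (3 * φ.length - 1 - k) *
        (ix φ (ρ + 1) (3 * φ.length - 1 - k) * 170 + 170 - (ix φ ρ k * 170 + sa φ ρ : ℕ)) =
          (eB φ (ρ + 1) (3 * φ.length - 1 - k) + dB φ (ρ + 1) (3 * φ.length - 1 - k)) * (26 - x) := by
      rw [valB k', c1]
      zify at E3 E4 E7
      push_cast
      linear_combination E3 - dB φ (ρ + 1) (3 * φ.length - 1 - k) * (E4 - E7)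
    rw [this]
    by_cases c : x = 26
    · exact .inr ⟨by simp [c], .inr ⟨c, rfl⟩⟩
    · have := mul_le_mul_of_nonneg_left (show (26 : ℤ) - x ≤ -1 by omega) (add_nonneg e0 d0)
      exact .inl (by omega)
  · obtain rfl : ρ = ρ' := by omega
    rw [k''] at e
    rw [e, valA hk, c1, ← mul_sub]
    by_cases c : x = 0
    · exact .inr ⟨by simp [c], .inl ⟨c, rfl⟩⟩
    · have := mul_le_mul_of_nonneg_left (show (ix φ (ρ + 1) (3 * φ.length - 1 - k) : ℤ) * 170 + 170 -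
        (ix φ ρ k * 170 + x + sa φ ρ : ℕ) - (ix φ (ρ + 1) (3 * φ.length - 1 - k) * 170 + 170 -
          (ix φ ρ k * 170 + sa φ ρ : ℕ)) ≤ -1 by omega) e0
      exact .inl (by omega)
  · have := mul_le_mul_of_nonneg_left (show (2 : ℤ) ≤ (ix φ (ρ + 1) (3 * φ.length - 1 - k) : ℤ) * 170 + 170 -
      (ix φ ρ k * 170 + sa φ ρ : ℕ) by rw [ix_succ, ix_eq, ix_eq ρ k]; omega) e0
    rw [e1] at e
    exact .inl (by omega)

theorem pushC {x} {δ : ℤ} (ho : Ok φ) (q3 : cq φ ρ k ≠ 3) (hk : k < 3 * φ.length) (hj : j ∈ jobs φ) (np : ¬pin φ j)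
    (hp : pj φ j = cs (cq φ ρ k)) (hd : dj φ j ≤ C) (c1 : C = ix φ ρ k * 170 + x + cs (cq φ ρ k))
    (c2 : x + cs (cq φ ρ k) ≤ 160) (hδ : δ = val φ j C - val φ (ρ, k, 4) (ix φ ρ k * 170 + (sa φ ρ + cs (cq φ ρ k)))) :
    δ ≤ (bb φ ^ 6 * zz φ (2 * ix φ ρ 0 + 1) : ℕ) ∧ (x < sa φ ρ ∨ δ ≤ -zz φ (2 * ix φ ρ 0 + 1) ∨
      δ = 0 ∧ (x = sa φ ρ ∧ j = (ρ, k, 4) ∨ x = 26 + sa φ ρ ∧ j = (ρ, 3 * φ.length, cq φ ρ k + 2))) := by
  obtain ⟨m, s3, s4⟩ := (cq_eq (φ := φ) ρ k).resolve_left fun w => q3 w.1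
  replace q3 : cq φ ρ k < 3 := by omega
  replace s4 : 0 < cs (cq φ ρ k) ∧ cs (cq φ ρ k) ≤ 51 := by omega
  have s5 : sa φ ρ ≤ 44 := by have := sb_eq ρ; have := sa_eq (φ := φ) ρ; omega
  obtain ⟨E1, E2, -, -, E3⟩ := eC_le ho m q3
  have E4 := (gc_eq ho m (cq φ ρ k)).2.2
  have E5 : vr φ ρ (va φ ρ (cq φ ρ k)) = k := by rw [← s3, (vr_vr hk).2.1]
  have E6 : sC φ ρ (cq φ ρ k) = ix φ ρ k * 170 + (26 + sa φ ρ + cs (cq φ ρ k)) := by rw [sC, E5]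
  have E7 := ix_eq (φ := φ) ρ (3 * φ.length)
  have E9 := ix_eq (φ := φ) ρ k
  have b0 := bb_ge (φ := φ)
  have e0 := (eC φ ρ (cq φ ρ k)).cast_nonneg (α := ℤ)
  have d0 := (dC φ ρ (cq φ ρ k)).cast_nonneg (α := ℤ)
  have E8 := mul_le_mul_of_nonneg_left (show (sa φ ρ : ℤ) - x ≤ bb φ by omega) e0
  generalize bb φ ^ 6 * zz φ (2 * ix φ ρ 0 + 1) = W at *
  rw [valC hk] at hδ
  rcases envC ho q3 hj np hp hd (ρ := ρ) (by omega) (by omega) with e | rfl | e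
  · rw [E5] at e
    rw [e, valC hk, c1, ← mul_sub, show (ix φ ρ (3 * φ.length) : ℤ) * 170 + 170 - (ix φ ρ k * 170 + x +
      cs (cq φ ρ k) : ℕ) - (ix φ ρ (3 * φ.length) * 170 + 170 - (ix φ ρ k * 170 + (sa φ ρ + cs (cq φ ρ k)) : ℕ)) =
        sa φ ρ - x by omega] at hδ
    refine ⟨by omega, ?_⟩
    rcases lt_trichotomy x (sa φ ρ) with c | c | c
    · exact .inl c
    · exact .inr (.inr ⟨by simp [c, hδ], .inl ⟨c, e⟩⟩)
    · have := mul_le_mul_of_nonneg_left (show (sa φ ρ : ℤ) - x ≤ -1 by omega) e0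
      exact .inr (.inl (by omega))
  · rw [djD m] at hd
    have : δ = (eC φ ρ (cq φ ρ k) + dC φ ρ (cq φ ρ k)) * (26 + sa φ ρ - x) := by
      rw [hδ, valD, c1]
      zify at E3 E4 E6
      push_cast
      linear_combination E3 - dC φ ρ (cq φ ρ k) * (E4 - E6)
    by_cases c : x = 26 + sa φ ρ
    · exact ⟨by simp [c, this], .inr (.inr ⟨by simp [c, this], .inr ⟨c, rfl⟩⟩)⟩
    · have := mul_le_mul_of_nonneg_left (show (26 + sa φ ρ : ℤ) - x ≤ -1 by omega) (add_nonneg e0 d0)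
      exact ⟨by omega, .inr (.inl (by omega))⟩
  · have := mul_le_mul_of_nonneg_left (show (1 : ℤ) ≤ (ix φ ρ (3 * φ.length) : ℤ) * 170 + 170 -
      (ix φ ρ k * 170 + (sa φ ρ + cs (cq φ ρ k)) : ℕ) by omega) e0
    exact ⟨by omega, .inr (.inl (by omega))⟩

theorem popB {x} {δ : ℤ} (h : ρ ≤ φ.length) (hk : k < 3 * φ.length) (hj : j ∈ jobs φ) (np : ¬pin φ j) (hp : pj φ j = sb ρ)
    (hd : dj φ j ≤ C) (c1 : C = ix φ ρ k * 170 + x + sb ρ) (c2 : x + sb ρ ≤ 160)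
    (hδ : δ = val φ j C - val φ (ρ, k, 3) (ix φ ρ k * 170 + ss φ ρ k)) : δ ≤ (bb φ ^ 6 * zz φ (ex φ ρ k) : ℕ) ∧
      (x = sa φ ρ + cs (cq φ ρ k) → δ < 0 ∨ δ = 0 ∧ j = (ρ, k, 3)) ∧ (x = sa φ ρ + cs (cq φ ρ k) + 26 →
        δ < -(eU φ ρ k * (sa φ ρ + cs (cq φ ρ k) + sb ρ)) ∨ δ = -(eU φ ρ k * (sa φ ρ + cs (cq φ ρ k) + sb ρ)) ∧
          ∀ ρ', ρ = ρ' + 1 → j = (ρ', 3 * φ.length - 1 - k, 2)) := by
  obtain ⟨B1, B2, -, -, B5, B6, B7⟩ := eB_le h hk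
  have s0 : 0 < sb ρ := by have := sb_eq ρ; omega
  have s1 := ss_le (φ := φ) ρ k
  have b0 := bb_ge (φ := φ)
  have eB0 := (eB φ ρ k).cast_nonneg (α := ℤ)
  have dB0 := (dB φ ρ k).cast_nonneg (α := ℤ)
  have V8 : δ = (eB φ ρ k + dB φ ρ k) * (sa φ ρ + cs (cq φ ρ k) - x) ∧ j = (ρ, k, 3) ∨
      δ = eB φ ρ k * (sa φ ρ + cs (cq φ ρ k) - x) - dB φ ρ k ∧ (∃ ρ', ρ = ρ' + 1 ∧ j = (ρ', 3 * φ.length - 1 - k, 2)) ∨
      δ < eB φ ρ k * (sa φ ρ + cs (cq φ ρ k) - x) - dB φ ρ k := by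
    rw [hδ, valB hk]
    rcases envT h hk (.inl rfl) hj np hp hd (by omega) (by omega) with e | ⟨ρ', rfl, e⟩ | e
    · refine .inl ⟨?_, e⟩
      rw [e, valB hk, t0, ss, c1]; push_cast; ring
    · refine .inr (.inl ⟨?_, _, rfl, e⟩)
      rw [e, valA (by omega), show 3 * φ.length - 1 - (3 * φ.length - 1 - k) = k by omega, t0, ss, c1]; push_cast; ring
    · refine .inr (.inr ?_)
      have := mul_le_mul_of_nonneg_left (show (1 : ℤ) ≤ 170 - x - sb ρ by omega) eB0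
      rw [t0, ss]; push_cast; linarith [show (zz φ (ex φ ρ k) : ℤ) ≤ eB φ ρ k by exact_mod_cast B1]
  have e : (eU φ ρ k : ℤ) * (sa φ ρ + cs (cq φ ρ k) + sb ρ) = 26 * eB φ ρ k + dB φ ρ k := by exact_mod_cast B5
  rw [e]
  clear hδ
  refine ⟨?_, fun c => ?_, fun c => ?_⟩
  · have r : (sa φ ρ + cs (cq φ ρ k) : ℤ) - x ≤ bb φ := by unfold ss at s1; omega
    have := mul_le_mul_of_nonneg_left r (add_nonneg eB0 dB0)
    have := mul_le_mul_of_nonneg_left r eB0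
    have := mul_nonneg dB0 (bb φ).cast_nonneg
    generalize bb φ ^ 6 * zz φ (ex φ ρ k) = W at *
    zify at B2
    rcases V8 with a | a | a
    exacts [by linarith [a.1], by linarith [a.1], by linarith]
  all_goals rw [c] at V8; push_cast at V8
  · rcases V8 with ⟨a, b⟩ | ⟨a, ρ', rfl, -⟩ | a
    · exact .inr ⟨by rw [a]; ring, b⟩
    · have := (B7 (by omega)).1
      exact .inl (by rw [a, sub_self, mul_zero]; omega)
    · exact .inl (by linarith)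
  · rcases V8 with ⟨a, b⟩ | ⟨a, ρ', rfl, b⟩ | a
    · rw [a]
      by_cases r : ρ = 0
      · exact .inr ⟨by rw [B6 r]; push_cast; ring, by omega⟩
      · have : (0 : ℤ) < dB φ ρ k := by exact_mod_cast (B7 r).1
        exact .inl (by linarith)
    · exact .inr ⟨by rw [a]; ring, fun _ w => by cases w; exact b⟩
    · exact .inl (by linarith)

theorem slotU {x} {δ : ℤ} (h : ρ ≤ φ.length) (hk : k < 3 * φ.length) (hj : j ∈ jobs φ) (np : ¬pin φ j) (hp : pj φ j = 26)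
    (hd : dj φ j ≤ C) (c1 : C = ix φ ρ k * 170 + x + 26) (c2 : x + 26 ≤ 160)
    (hδ : δ = val φ j C - val φ (ρ, k, 1) (ix φ ρ k * 170 + (26 + ss φ ρ k))) : δ ≤ (bb φ ^ 6 * zz φ (ex φ ρ k) : ℕ) ∧
      δ ≤ eU φ ρ k * (sa φ ρ + cs (cq φ ρ k) + sb ρ - x) := by
  have a := envU (ρ := ρ) hj np hp hd hk (by omega) (by omega)
  have b : δ ≤ eU φ ρ k * (sa φ ρ + cs (cq φ ρ k) + sb ρ - x) := by
    rw [hδ, valU hk, ss]
    rw [c1] at a ⊢
    push_cast at *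
    linarith
  have := ss_le (φ := φ) ρ k
  have := bb_ge (φ := φ)
  have := mul_le_mul_of_nonneg_left (show (sa φ ρ + cs (cq φ ρ k) + sb ρ : ℤ) - x ≤ bb φ by unfold ss at *; omega)
    (eU φ ρ k).cast_nonneg
  have := (eB_le h hk).2.2.1
  exact ⟨by omega, b⟩

theorem popC {x} {δ : ℤ} (ho : Ok φ) (m : ρ < φ.length) (hq : q < 3) (hj : j ∈ jobs φ) (np : ¬pin φ j) (hp : pj φ j = cs q)
    (hd : dj φ j ≤ C) (c1 : C = ix φ ρ (3 * φ.length) * 170 + x + cs q) (c2 : x + cs q ≤ 160)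
    (hδ : δ = val φ j C - eC φ ρ q * (170 - x - cs q)) : (x = 0 → δ < hh φ ρ ∨ δ = hh φ ρ ∧ j = (ρ, 3 * φ.length, q + 2)) ∧
      (x ≠ 0 → δ < 0 ∨ δ = 0 ∧ j = (ρ, vr φ ρ (va φ ρ q), 4)) := by
  obtain ⟨E1, -, E2, E3, -⟩ := eC_le ho m hq
  have := zz_pos (φ := φ) (2 * ix φ ρ 0 + 1)
  have := cs_eq hq
  have := ix_eq (φ := φ) ρ (3 * φ.length)
  rcases envC ho hq hj np hp hd (ρ := ρ) (by omega) (by omega) with rfl | rfl | e
  · have : δ = 0 := by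
      rw [hδ, valC (vr_vr ((va_ok ho m).1 q)).1, (va_ok ho m).2 q hq, c1]; push_cast; ring
    exact ⟨fun _ => .inl (by omega), fun _ => .inr ⟨this, rfl⟩⟩
  · have a : δ = hh φ ρ - dC φ ρ q * x := by rw [hδ, valD, c1]; push_cast; ring
    refine ⟨fun c => .inr ⟨by simp [a, c], rfl⟩, fun c => .inl ?_⟩
    have := mul_le_mul_of_nonneg_left (show (1 : ℤ) ≤ x by omega) (dC φ ρ q).cast_nonneg
    omega
  · have := mul_le_mul_of_nonneg_left (show (1 : ℤ) ≤ 170 - x - cs q by omega) (eC φ ρ q).cast_nonneg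
    exact ⟨fun _ => .inl (by omega), fun _ => .inl (by omega)⟩

end Pool.Agent.H.MP_9ce56d_lc
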