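import Pool.Agent.H.MP_9ce56d_lc.C

/-! Soundness. -/

namespace Pool.Agent.H.MP_9ce56d_lc

open Finset Pool.Agent.Lib.CX

variable {φ : List (T3 ℕ)} {ρ k q : ℕ} {j : ℕ × ℕ × ℕ} {C : ℕ × ℕ × ℕ → ℕ}

structure Feas (φ : List (T3 ℕ)) (C : ℕ × ℕ × ℕ → ℕ) : Prop where
  h1 : ∀ i ∈ jobs φ, ∀ j ∈ jobs φ, i ≠ j → C i + pj φ j ≤ C j ∨ C j + pj φ i ≤ C i
  h2 : ∀ j ∈ jobs φ, ct (jobs φ) (pj φ) C j = C j
  h3 : ∀ j ∈ jobs φ, if pin φ j then C j = dj φ j else dj φ j ≤ C j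
  h4 : ∀ j ∈ jobs φ, pj φ j ≤ C j ∧ C j ≤ (φ.length + 1) * (3 * φ.length + 1) * 170

abbrev In (φ : List (T3 ℕ)) (C : ℕ × ℕ × ℕ → ℕ) (ρ k : ℕ) (j : ℕ × ℕ × ℕ) : Prop :=
  ix φ ρ k * 170 < C j ∧ C j ≤ ix φ ρ k * 170 + 170

def reg (φ : List (T3 ℕ)) (C : ℕ × ℕ × ℕ → ℕ) (ρ k : ℕ) : Finset (ℕ × ℕ × ℕ) := {j ∈ jobs φ | ¬pin φ j ∧ In φ C ρ k j}

theorem Feas.pn (H : Feas φ C) (hj : j ∈ jobs φ) (h : pin φ j) : C j = dj φ j := (if_pos h).mp (H.h3 j hj)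

theorem Feas.wall (H : Feas φ C) (h : ρ ≤ φ.length) (hk : k ≤ 3 * φ.length) :
    (ρ, k, 0) ∈ jobs φ ∧ C (ρ, k, 0) = ix φ ρ k * 170 + 170 :=
  have a : (ρ, k, 0) ∈ jobs φ := mem_jobs.2 ⟨h, hk, by simp⟩
  ⟨a, H.pn a (.inl rfl)⟩

theorem Feas.prev (H : Feas φ C) (h : ρ ≤ φ.length) (hk : k ≤ 3 * φ.length) :
    ix φ ρ k = 0 ∨ ∃ w ∈ jobs φ, C w = ix φ ρ k * 170 := by
  rcases k with _ | k
  · rcases ρ with _ | ρ
    · simp [ix]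
    · have := H.wall (ρ := ρ) (by omega) le_rfl
      exact .inr ⟨_, this.1, by rw [this.2, ix_succ, ix_eq]; ring⟩
  · have := H.wall h (show k ≤ _ by omega)
    exact .inr ⟨_, this.1, by rw [this.2, ix_eq, ix_eq _ (k + 1)]; ring⟩

theorem Feas.sum_reg (H : Feas φ C) (h : ρ ≤ φ.length) (hk : k ≤ 3 * φ.length) :
    ∑ j ∈ reg φ C ρ k, pj φ j = ll φ ρ k := by
  have a : ∑ j ∈ jobs φ with C j ≤ ix φ ρ k * 170 + 170, pj φ j = ix φ ρ k * 170 + 170 := by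
    have := H.wall h hk
    rw [← this.2]
    exact H.h2 _ this.1
  have b : ∑ j ∈ jobs φ with C j ≤ ix φ ρ k * 170, pj φ j = ix φ ρ k * 170 := by
    rcases H.prev h hk with c | ⟨w, c, d⟩
    · rw [c]
      exact sum_eq_zero fun j hj => by have := H.h4 j (mem_filter.1 hj).1; have := (mem_filter.1 hj).2; omega
    · rw [← d]
      exact H.h2 _ c
  have c : (∑ j ∈ jobs φ, if pin φ j ∧ In φ C ρ k j then pj φ j else 0) =
      ∑ κ ∈ range 5, if pin φ (ρ, k, κ) then pj φ (ρ, k, κ) else 0 := by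
    rw [sum_jobs, sum_eq_single (ρ, k) (fun r hr e => sum_eq_zero fun κ hκ => if_neg fun w => e ?_)
      (fun w => absurd (by simp; omega) w)]
    · refine sum_congr rfl fun κ hκ => if_congr (and_iff_left_of_imp fun w => ?_) rfl rfl
      have m : (ρ, k, κ) ∈ jobs φ := mem_jobs.2 ⟨h, hk, by simpa [Nat.lt_succ_iff] using hκ⟩
      rw [In, H.pn m w]
      exact dj_pin (mem_range.1 hκ) w
    · simp only [mem_product, mem_range] at hr hκ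
      have m : (r.1, r.2, κ) ∈ jobs φ := mem_jobs.2 ⟨by simp only; omega, by simp only; omega, by simp only; omega⟩
      have := dj_pin hκ w.1
      have := H.pn m w.1
      have := ix_inj (φ := φ) (show ix φ r.1 r.2 = ix φ ρ k by simp only [In] at *; omega) (by omega) hk
      exact Prod.ext this.1 this.2
  have d := (sum5 h hk).2
  have e : (∑ j ∈ jobs φ, if C j ≤ ix φ ρ k * 170 + 170 then pj φ j else 0) =
      ∑ j ∈ jobs φ, ((if C j ≤ ix φ ρ k * 170 then pj φ j else 0) + (if pin φ j ∧ In φ C ρ k j then pj φ j else 0) +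
        if ¬pin φ j ∧ In φ C ρ k j then pj φ j else 0) := sum_congr rfl fun j _ => by
    by_cases P : pin φ j <;> simp only [P, In, true_and, false_and, not_true, not_false_eq_true, if_false] <;>
      split_ifs <;> omega
  simp only [sum_add_distrib, sum_filter, reg] at *
  omega

theorem Feas.pos (H : Feas φ C) (h : ρ ≤ φ.length) (hk : k ≤ 3 * φ.length) (hj : j ∈ reg φ C ρ k) :
    ∃ x, C j = ix φ ρ k * 170 + x + pj φ j ∧ x + pj φ j ≤ ll φ ρ k := by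
  obtain ⟨a, b, c, d⟩ := mem_filter.1 hj
  have p := pj_pos a
  have e : ix φ ρ k * 170 + pj φ j ≤ C j := by
    rcases H.prev h hk with e | ⟨w, e, f⟩
    · have := H.h4 j a; omega
    · have := H.h1 w e j a (by rintro rfl; omega); omega
  have f : ∀ κ ≤ 4, pin φ (ρ, k, κ) → dj φ (ρ, k, κ) + pj φ j ≤ C j ∨ C j + pj φ (ρ, k, κ) ≤ dj φ (ρ, k, κ) := fun κ r s => by
    have m : (ρ, k, κ) ∈ jobs φ := mem_jobs.2 ⟨h, hk, r⟩
    rw [← H.pn m s]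
    exact H.h1 _ m j a (by rintro rfl; exact b s)
  refine ⟨C j - (ix φ ρ k * 170 + pj φ j), by omega, ?_⟩
  have f0 := f 0 (by omega)
  have f1 := f 1 (by omega)
  have f2 := f 2 (by omega)
  have f3 := f 3 (by omega)
  have f4 := f 4 (by omega)
  have := ll_nf (φ := φ) ρ k
  have := cq_eq (φ := φ) ρ k
  generalize pj φ j = x, C j = y at *
  clear f a b hj
  simp only [pj, dj, pin, nf, ← not_lt] at *
  by_cases a : k < 3 * φ.length <;> by_cases b : ρ < φ.length <;> by_cases c : cq φ ρ k = 3 <;>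
    simp [a, b, c, -not_lt] at * <;> omega

theorem reg_mem (hj : j ∈ reg φ C ρ k) : pj φ j ∈ ({26, 39, 44, 48, 50, 51} : Finset ℕ) := by
  obtain ⟨a, b, -⟩ := mem_filter.1 hj
  simp only [mem_insert, mem_singleton]
  obtain ⟨ρ', a, ⟨k', b, ⟨rfl, c⟩ | ⟨rfl, c, d⟩ | ⟨rfl, c⟩ | ⟨rfl, c, d⟩⟩ | ⟨b, q', c, rfl, d⟩⟩ := cls a b
  exacts [by omega, by have := sb_eq ρ'; omega, by have := sb_eq ρ'; omega, by have := cq_eq (φ := φ) ρ' k'; omega,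
    by have := cs_eq c; omega]

theorem Feas.dec (H : Feas φ C) (h : ρ ≤ φ.length) (hk : k ≤ 3 * φ.length) (z : Finset ℕ) (hz : z ∈ ([{26, 39, 44},
    {26, 39, 44, 48}, {26, 39, 44, 50}, {26, 39, 44, 51}, {26, 39}, {26, 44}, {48, 50, 51}] : List (Finset ℕ)))
    (e : ∑ x ∈ z, x = ll φ ρ k) : ∃ f : ℕ → ℕ × ℕ × ℕ, (∀ x ∈ z, f x ∈ reg φ C ρ k ∧ pj φ (f x) = x) ∧
      ∀ v : ℕ × ℕ × ℕ → ℤ, ∑ j ∈ reg φ C ρ k, v j = ∑ x ∈ z, v (f x) :=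
  decomp (by clear e; revert z; decide) (fun _ => reg_mem) fun c hc => uniq z hz c (by rw [hc, H.sum_reg h hk, e])

def Early (φ : List (T3 ℕ)) (C : ℕ × ℕ × ℕ → ℕ) (ρ k : ℕ) : Prop :=
  (ρ < φ.length → In φ C ρ k (ρ, k, 2)) ∧ (cq φ ρ k ≠ 3 → In φ C ρ k (ρ, k, 4)) ∧ In φ C ρ k (ρ, k, 3)

def Late (φ : List (T3 ℕ)) (C : ℕ × ℕ × ℕ → ℕ) (ρ k : ℕ) : Prop :=
  (ρ < φ.length → In φ C ρ k (ρ + 1, 3 * φ.length - 1 - k, 3)) ∧
    (cq φ ρ k ≠ 3 → In φ C ρ k (ρ, 3 * φ.length, cq φ ρ k + 2)) ∧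
      ∀ ρ', ρ = ρ' + 1 → In φ C ρ k (ρ', 3 * φ.length - 1 - k, 2)

theorem refV (hk : k < 3 * φ.length) : (∑ κ ∈ range 5, if pin φ (ρ, k, κ) then 0 else ref φ (ρ, k, κ)) =
    (if sa φ ρ = 0 then 0 else val φ (ρ, k, 2) (ix φ ρ k * 170 + sa φ ρ)) +
    (if cs (cq φ ρ k) = 0 then 0 else val φ (ρ, k, 4) (ix φ ρ k * 170 + (sa φ ρ + cs (cq φ ρ k)))) +
    val φ (ρ, k, 3) (ix φ ρ k * 170 + ss φ ρ k) + val φ (ρ, k, 1) (ix φ ρ k * 170 + (26 + ss φ ρ k)) := by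
  have a : sa φ ρ = 0 ↔ φ.length ≤ ρ := by have := sa_eq (φ := φ) ρ; have := sb_eq ρ; omega
  have b : cs (cq φ ρ k) = 0 ↔ cq φ ρ k = 3 := by have := cq_eq (φ := φ) ρ k; omega
  simp [sum_range_succ, ref, pin, hk, hk.not_ge, a, b]
  ring

theorem Feas.var (H : Feas φ C) (ho : Ok φ) (h : ρ ≤ φ.length) (hk : k < 3 * φ.length) :
    ∑ j ∈ reg φ C ρ k, val φ j (C j) ≤ (∑ κ ∈ range 5, if pin φ (ρ, k, κ) then 0 else ref φ (ρ, k, κ)) ∧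
    ((∑ κ ∈ range 5, if pin φ (ρ, k, κ) then 0 else ref φ (ρ, k, κ)) ≤ ∑ j ∈ reg φ C ρ k, val φ j (C j) →
      Early φ C ρ k ∨ Late φ C ρ k) := by
  have s1' := sb_eq ρ
  have s2 := sa_eq (φ := φ) ρ
  have s3 := cq_eq (φ := φ) ρ k
  have l1 : ll φ ρ k = 26 + (sa φ ρ + cs (cq φ ρ k) + sb ρ) := if_pos hk
  obtain ⟨f, f1, f2⟩ : ∃ f : ℕ → ℕ × ℕ × ℕ, (∀ x, x ≠ 0 → x = 26 ∨ x = sa φ ρ ∨ x = sb ρ ∨ x = cs (cq φ ρ k) →
      f x ∈ reg φ C ρ k ∧ pj φ (f x) = x) ∧ ∀ v : ℕ × ℕ × ℕ → ℤ, ∑ j ∈ reg φ C ρ k, v j = (if sa φ ρ = 0 then 0 else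
        v (f (sa φ ρ))) + (if cs (cq φ ρ k) = 0 then 0 else v (f (cs (cq φ ρ k)))) + v (f (sb ρ)) + v (f 26) := by
    have : (sa φ ρ = 39 ∧ sb ρ = 44 ∨ sa φ ρ = 44 ∧ sb ρ = 39) ∧ (cs (cq φ ρ k) = 0 ∨ cs (cq φ ρ k) = 48 ∨
      cs (cq φ ρ k) = 50 ∨ cs (cq φ ρ k) = 51) ∨ sa φ ρ = 0 ∧ cs (cq φ ρ k) = 0 ∧ (sb ρ = 39 ∨ sb ρ = 44) := by omega
    obtain ⟨f, f1, f2⟩ := H.dec h hk.le (({26, sa φ ρ, sb ρ, cs (cq φ ρ k)} : Finset ℕ).erase 0) (by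
      rcases this with ⟨⟨a, b⟩ | ⟨a, b⟩, c | c | c | c⟩ | ⟨a, c, b | b⟩ <;> rw [a, b, c] <;> decide) (by
      rw [l1]
      rcases this with ⟨⟨a, b⟩ | ⟨a, b⟩, c | c | c | c⟩ | ⟨a, c, b | b⟩ <;> rw [a, b, c] <;> decide)
    refine ⟨f, fun x a b => f1 x (by simpa [a] using b), fun v => ?_⟩
    rw [f2]
    rcases this with ⟨⟨a, b⟩ | ⟨a, b⟩, c | c | c | c⟩ | ⟨a, c, b | b⟩ <;> rw [a, b, c] <;>
      simp [erase_insert_of_ne] <;> ring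
  have f3 : ∀ x, ∃ y, x ≠ 0 → x = 26 ∨ x = sa φ ρ ∨ x = sb ρ ∨ x = cs (cq φ ρ k) → C (f x) = ix φ ρ k * 170 + y + x ∧
      y + x ≤ 26 + (sa φ ρ + cs (cq φ ρ k) + sb ρ) ∧ f x ∈ jobs φ ∧ ¬pin φ (f x) ∧ dj φ (f x) ≤ C (f x) ∧
        In φ C ρ k (f x) := fun x => by
    by_cases c : x ≠ 0 ∧ (x = 26 ∨ x = sa φ ρ ∨ x = sb ρ ∨ x = cs (cq φ ρ k))
    · obtain ⟨a, b⟩ := f1 x c.1 c.2
      obtain ⟨y, d, e⟩ := H.pos h hk.le a
      obtain ⟨r, s, t⟩ := mem_filter.1 a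
      exact ⟨y, fun _ _ => ⟨by omega, by omega, r, s, (if_neg s).mp (H.h3 _ r), t⟩⟩
    · exact ⟨0, fun a b => absurd ⟨a, b⟩ c⟩
  choose y hy using f3
  have f4 : ∀ x x', x ≠ 0 → x' ≠ 0 → x ≠ x' → x = 26 ∨ x = sa φ ρ ∨ x = sb ρ ∨ x = cs (cq φ ρ k) →
      x' = 26 ∨ x' = sa φ ρ ∨ x' = sb ρ ∨ x' = cs (cq φ ρ k) → y x + x ≤ y x' ∨ y x' + x' ≤ y x := fun x x' a a' e b b' => by
    have p := hy x a b
    have p' := hy x' a' b'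
    have r := (f1 x a b).2
    have r' := (f1 x' a' b').2
    have := H.h1 _ p.2.2.1 _ p'.2.2.1 fun w => e (by rw [← r, w, r'])
    omega
  have b0 := bb_ge (φ := φ)
  have b1 := ix_bb h
  have b2 := ix_eq (φ := φ) ρ k
  have b3 : sa φ ρ + cs (cq φ ρ k) + sb ρ ≤ 134 := (ss_le ρ k).2
  have B8 := (Nat.mul_le_mul_right _ b0).trans (zz_lt (ex_le h hk).1 (show _ ≤ bb φ by omega))
  have B9 := (Nat.mul_le_mul_right _ b0).trans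
    (zz_lt (show 2 * ix φ ρ 0 + 1 < 2 * ix φ ρ k + 2 by omega) (show _ ≤ bb φ by omega))
  have w2 : zz φ (2 * ix φ ρ 0 + 1) ≤ bb φ ^ 6 * _ := Nat.le_mul_of_pos_left _ (pow_pos (by omega) _)
  have w3 := zz_pos (φ := φ) (2 * ix φ ρ 0 + 1)
  have n1 : 26 < sb ρ ∧ sb ρ < 45 ∧ sa φ ρ < 45 ∧ sa φ ρ ≠ sb ρ := by omega
  have n2 : sa φ ρ = 0 ∨ 26 < sa φ ρ := by omega
  have n3 : cs (cq φ ρ k) = 0 ∨ 45 < cs (cq φ ρ k) := by omega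
  have n4 : sa φ ρ = 0 ↔ ¬ρ < φ.length := by omega
  have n5 : cs (cq φ ρ k) = 0 ↔ cq φ ρ k = 3 := by omega
  have n6 : sa φ ρ = 0 → cs (cq φ ρ k) = 0 := by omega
  clear s1' s2 s3
  have m1 : sb ρ ≠ 0 ∧ sb ρ ≠ 26 ∧ (sa φ ρ ≠ 0 → sa φ ρ ≠ 26) ∧ (cs (cq φ ρ k) ≠ 0 → cs (cq φ ρ k) ≠ sb ρ ∧
    cs (cq φ ρ k) ≠ 26 ∧ cs (cq φ ρ k) ≠ sa φ ρ) ∧ (cs (cq φ ρ k) = 0 ∨ 26 < cs (cq φ ρ k)) := by omega
  have m2 : ((bb φ ^ 6 * zz φ (2 * ix φ ρ 0 + 1) : ℕ) : ℤ) + (bb φ ^ 6 * zz φ (ex φ ρ k) : ℕ) +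
    (bb φ ^ 6 * zz φ (ex φ ρ k) : ℕ) < zz φ (2 * ix φ ρ k + 2) := by omega
  have m3 : ((bb φ ^ 6 * zz φ (ex φ ρ k) : ℕ) : ℤ) + (bb φ ^ 6 * zz φ (ex φ ρ k) : ℕ) < zz φ (2 * ix φ ρ 0 + 1) := by omega
  have m4 : ∀ x, x ≤ 26 + (sa φ ρ + cs (cq φ ρ k) + sb ρ) → x ≤ 160 := fun x _ => by omega
  obtain ⟨U1, U2, U3, U4, U5, U6⟩ := hy 26 (by simp) (.inl rfl)
  obtain ⟨V1, V2, V3, V4, V5, V6⟩ := hy (sb ρ) m1.1 (.inr (.inr (.inl rfl)))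
  have U7 := slotU h hk U3 U4 (f1 26 (by simp) (.inl rfl)).2 U5 U1 (m4 _ U2) rfl
  have V7 := popB h hk V3 V4 (f1 _ m1.1 (.inr (.inr (.inl rfl)))).2 V5 V1 (m4 _ V2) rfl
  have key := @regV (sa φ ρ) (sb ρ) (cs (cq φ ρ k)) (y (sa φ ρ)) (y (sb ρ)) (y (cs (cq φ ρ k))) (y 26)
    (if sa φ ρ = 0 then 0 else val φ (f (sa φ ρ)) (C (f (sa φ ρ))) - val φ (ρ, k, 2) (ix φ ρ k * 170 + sa φ ρ)) _
    (if cs (cq φ ρ k) = 0 then 0 else val φ (f (cs (cq φ ρ k))) (C (f (cs (cq φ ρ k)))) -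
      val φ (ρ, k, 4) (ix φ ρ k * 170 + (sa φ ρ + cs (cq φ ρ k)))) _
    (zz φ (2 * ix φ ρ k + 2)) (zz φ (2 * ix φ ρ 0 + 1)) _ (bb φ ^ 6 * zz φ (2 * ix φ ρ 0 + 1) : ℕ) _
    (ρ < φ.length → In φ C ρ k (ρ, k, 2)) (ρ < φ.length → In φ C ρ k (ρ + 1, 3 * φ.length - 1 - k, 3)) (In φ C ρ k (ρ, k, 3))
    (∀ ρ', ρ = ρ' + 1 → In φ C ρ k (ρ', 3 * φ.length - 1 - k, 2)) (cq φ ρ k ≠ 3 → In φ C ρ k (ρ, k, 4))
    (cq φ ρ k ≠ 3 → In φ C ρ k (ρ, 3 * φ.length, cq φ ρ k + 2)) n1.1 n2 m1.2.2.2.2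
    (fun a => ⟨n6 a, if_pos a, fun w => absurd w (n4.1 a), fun w => absurd w (n4.1 a)⟩)
    (fun a => ⟨if_pos a, fun w => absurd (n5.1 a) w, fun w => absurd (n5.1 a) w⟩)
    (fun a => ⟨(hy _ a (by simp)).2.1, f4 _ _ a m1.1 n1.2.2.2 (by simp) (by simp),
      f4 _ _ a (by simp) (m1.2.2.1 a) (by simp) (by simp)⟩)
    (fun a => ⟨(hy _ a (by simp)).2.1, f4 _ _ a m1.1 (m1.2.2.2.1 a).1 (by simp) (by simp),
      f4 _ _ a (by simp) (m1.2.2.2.1 a).2.1 (by simp) (by simp), f4 _ _ a (mt n6 a) (m1.2.2.2.1 a).2.2 (by simp) (by simp)⟩)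
    ⟨V2, U2, f4 _ _ m1.1 (by simp) m1.2.1 (by simp) (by simp)⟩ (fun a => ⟨m2, ?_⟩) (fun a => ⟨m3, ?_⟩)
    ⟨fun a => (V7.2.1 a).imp_right fun w => ⟨w.1, by rw [← w.2]; exact V6⟩,
      fun a => (V7.2.2 a).imp_right fun w => ⟨w.1, fun r e => by rw [← w.2 r e]; exact V6⟩⟩ U7.2
    (by exact_mod_cast (eB_le h hk).2.2.2.1) V7.1 U7.1 (Nat.cast_nonneg _)
  · rw [refV hk, f2]
    refine ⟨?_, fun a => key.2 ?_⟩
    · have := key.1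
      split_ifs at this ⊢ <;> linarith
    · split_ifs at a ⊢ <;> linarith
  · obtain ⟨A1, A2, A3, A4, A5, A6⟩ := hy _ a (by simp)
    rw [if_neg a]
    exact (pushA (not_not.1 (mt n4.2 a)) hk A3 A4 (f1 _ a (by simp)).2 A5 A1 (m4 _ A2)).imp_right fun w =>
      ⟨w.1, w.2.imp (fun w => ⟨w.1, fun _ => by rw [← w.2]; exact A6⟩) fun w => ⟨w.1, fun _ => by rw [← w.2]; exact A6⟩⟩
  · obtain ⟨A1, A2, A3, A4, A5, A6⟩ := hy _ a (by simp)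
    rw [if_neg a]
    exact (pushC ho (mt n5.2 a) hk A3 A4 (f1 _ a (by simp)).2 A5 A1 (m4 _ A2) rfl).imp_right fun w => w.imp_right fun w =>
      w.imp_right fun w => ⟨w.1, w.2.imp (fun w => ⟨w.1, fun _ => by rw [← w.2]; exact A6⟩) fun w =>
        ⟨w.1, fun _ => by rw [← w.2]; exact A6⟩⟩

def One (φ : List (T3 ℕ)) (C : ℕ × ℕ × ℕ → ℕ) (ρ q : ℕ) : Prop := In φ C ρ (3 * φ.length) (ρ, 3 * φ.length, q + 2)

def Zero (φ : List (T3 ℕ)) (C : ℕ × ℕ × ℕ → ℕ) (ρ q : ℕ) : Prop := In φ C ρ (3 * φ.length) (ρ, vr φ ρ (va φ ρ q), 4)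

theorem Feas.cla (H : Feas φ C) (ho : Ok φ) (h : ρ ≤ φ.length) :
    ∑ j ∈ reg φ C ρ (3 * φ.length), val φ j (C j) ≤
      (∑ κ ∈ range 5, if pin φ (ρ, 3 * φ.length, κ) then 0 else ref φ (ρ, 3 * φ.length, κ)) ∧
    ((∑ κ ∈ range 5, if pin φ (ρ, 3 * φ.length, κ) then 0 else ref φ (ρ, 3 * φ.length, κ)) ≤
      ∑ j ∈ reg φ C ρ (3 * φ.length), val φ j (C j) → ρ < φ.length → One φ C ρ 0 ∧ Zero φ C ρ 1 ∧ Zero φ C ρ 2 ∨
        Zero φ C ρ 0 ∧ One φ C ρ 1 ∧ Zero φ C ρ 2 ∨ Zero φ C ρ 0 ∧ Zero φ C ρ 1 ∧ One φ C ρ 2) := by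
  by_cases m : ρ < φ.length
  swap
  · have : reg φ C ρ (3 * φ.length) = ∅ := eq_empty_of_forall_notMem fun j hj => by
      obtain ⟨x, -, a⟩ := H.pos h le_rfl hj
      have := pj_pos (mem_filter.1 hj).1
      simp only [ll, m, lt_irrefl, if_false] at a
      omega
    simp [this, pin, not_lt.1 m, m]
  have l : ll φ ρ (3 * φ.length) = 149 := by simp [ll, m]
  obtain ⟨f, f1, f2⟩ := H.dec h le_rfl {48, 50, 51} (by decide) (by rw [l]; decide)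
  have f3 : ∀ q, ∃ y, q < 3 → C (f (cs q)) = ix φ ρ (3 * φ.length) * 170 + y + cs q ∧ y + cs q ≤ 149 ∧ f (cs q) ∈ jobs φ ∧
      pj φ (f (cs q)) = cs q ∧ ∀ δ, δ = val φ (f (cs q)) (C (f (cs q))) - eC φ ρ q * (170 - y - cs q) →
        (y = 0 → δ < hh φ ρ ∨ δ = hh φ ρ ∧ One φ C ρ q) ∧ (y ≠ 0 → δ < 0 ∨ δ = 0 ∧ Zero φ C ρ q) := fun q => by
    by_cases c : q < 3
    · obtain ⟨a, b⟩ := f1 (cs q) (by have := cs_eq c; simp only [mem_insert, mem_singleton]; omega)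
      obtain ⟨y, d, e⟩ := H.pos h le_rfl a
      obtain ⟨r, s, t⟩ := mem_filter.1 a
      rw [b] at d e
      refine ⟨y, fun _ => ⟨d, l ▸ e, r, b, fun δ w => ?_⟩⟩
      have := popC ho m c r s b ((if_neg s).mp (H.h3 _ r)) d (by omega) w
      exact ⟨fun a => (this.1 a).imp_right (And.imp_right fun w => by rw [One, ← w]; exact t),
        fun a => (this.2 a).imp_right (And.imp_right fun w => by rw [Zero, ← w]; exact t)⟩
    · exact ⟨0, fun a => absurd a c⟩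
  choose y hy using f3
  obtain ⟨a1, a2, a3, a4, a5⟩ := hy 0 (by omega)
  obtain ⟨b1, b2, b3, b4, b5⟩ := hy 1 (by omega)
  obtain ⟨c1, c2, c3, c4, c5⟩ := hy 2 (by omega)
  simp only [show cs 0 = 48 from rfl, show cs 1 = 50 from rfl, show cs 2 = 51 from rfl] at *
  obtain ⟨k1, k2, k3⟩ := regC ⟨a2, b2, c2, by have := H.h1 _ a3 _ b3 (fun w => by rw [w] at a4; omega); omega,
    by have := H.h1 _ a3 _ c3 (fun w => by rw [w] at a4; omega); omega,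
    by have := H.h1 _ b3 _ c3 (fun w => by rw [w] at b4; omega); omega⟩ (a5 _ rfl) (b5 _ rfl) (c5 _ rfl)
  have e : (eC φ ρ 0 : ℤ) * (170 - y 0 - (48 : ℕ)) + eC φ ρ 1 * (170 - y 1 - (50 : ℕ)) + eC φ ρ 2 * (170 - y 2 - (51 : ℕ)) =
      eC φ ρ 0 * 122 + eC φ ρ 1 * 72 + eC φ ρ 2 * 21 := by
    zify at k1
    simp only [eC, show cs 0 = 48 from rfl, show cs 1 = 50 from rfl, show cs 2 = 51 from rfl]
    push_cast
    linear_combination -(hh φ ρ * zz φ (2 * ix φ ρ 0 + 1) : ℤ) * k1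
  rw [f2]
  simp only [sum_range_succ, pin, ref, lt_irrefl, m.not_ge]
  norm_num
  exact ⟨by linarith, fun a _ => k3 (by linarith)⟩

theorem In.uniq {ρ' k'} (a : In φ C ρ k j) (b : In φ C ρ' k' j) (hk : k ≤ 3 * φ.length) (hk' : k' ≤ 3 * φ.length) :
    ρ = ρ' ∧ k = k' := ix_inj (by unfold In at *; omega) hk hk'

theorem Feas.split (H : Feas φ C) : (∑ j ∈ jobs φ, if pin φ j then 0 else val φ j (C j)) =
    ∑ r ∈ range (φ.length + 1) ×ˢ range (3 * φ.length + 1), ∑ j ∈ reg φ C r.1 r.2, val φ j (C j) := by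
  simp only [reg, sum_filter]
  rw [sum_comm]
  refine sum_congr rfl fun j hj => ?_
  have p := H.h4 j hj
  have q := pj_pos hj
  have e : ix φ ((C j - 1) / 170 / (3 * φ.length + 1)) ((C j - 1) / 170 % (3 * φ.length + 1)) = (C j - 1) / 170 :=
    Nat.mod_add_div _ _
  have i : In φ C ((C j - 1) / 170 / (3 * φ.length + 1)) ((C j - 1) / 170 % (3 * φ.length + 1)) j := by
    rw [In, e]; omega
  have l := Nat.mod_lt ((C j - 1) / 170) (show 0 < 3 * φ.length + 1 by omega)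
  rw [sum_eq_single ((C j - 1) / 170 / (3 * φ.length + 1), (C j - 1) / 170 % (3 * φ.length + 1))
    (fun r hr w => if_neg fun c => w ?_) fun w => absurd ?_ w]
  · by_cases P : pin φ j
    exacts [by rw [if_pos P, if_neg fun w => w.1 P], by rw [if_neg P, if_pos ⟨P, i⟩]]
  · simp only [mem_product, mem_range] at hr
    have := c.2.uniq i (by omega) (by omega)
    exact Prod.ext this.1 this.2
  · simp only [mem_product, mem_range]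
    exact ⟨Nat.div_lt_of_lt_mul (by rw [mul_comm]; omega), l⟩

theorem Feas.tight (H : Feas φ C) (ho : Ok φ) (h : ∑ j ∈ jobs φ, (if pin φ j then 0 else ref φ j) ≤
    ∑ j ∈ jobs φ, if pin φ j then 0 else val φ j (C j)) (a : ρ ≤ φ.length) (b : k ≤ 3 * φ.length) :
    (∑ κ ∈ range 5, if pin φ (ρ, k, κ) then 0 else ref φ (ρ, k, κ)) ≤ ∑ j ∈ reg φ C ρ k, val φ j (C j) := by
  rw [H.split, sum_jobs] at h
  have c : ∀ r ∈ range (φ.length + 1) ×ˢ range (3 * φ.length + 1), ∑ j ∈ reg φ C r.1 r.2, val φ j (C j) ≤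
      ∑ κ ∈ range 5, if pin φ (r.1, r.2, κ) then 0 else ref φ (r.1, r.2, κ) := by
    rintro ⟨ρ, k⟩ hr
    simp only [mem_product, mem_range] at hr ⊢
    rcases (Nat.le_of_lt_succ hr.2).lt_or_eq with c | rfl
    exacts [(H.var ho (by omega) c).1, (H.cla ho (by omega)).1]
  have := (sum_eq_sum_iff_of_le c).1 (le_antisymm (sum_le_sum c) h) (ρ, k) (by simp; omega)
  simp only at this
  exact this.ge

theorem Feas.sound (H : Feas φ C) (ho : Ok φ) (h : ∑ j ∈ jobs φ, (if pin φ j then 0 else ref φ j) ≤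
    ∑ j ∈ jobs φ, if pin φ j then 0 else val φ j (C j)) : SatR one3 φ := by
  classical
  have c : ∀ ρ ≤ φ.length, ∀ k < 3 * φ.length, Early φ C ρ k ∨ Late φ C ρ k := fun ρ a k hk =>
    (H.var ho a hk).2 (H.tight ho h a hk.le)
  have d : ∀ ρ ≤ φ.length, ∀ k < 3 * φ.length, Early φ C ρ k ↔ Early φ C 0 (vr φ ρ k) := fun ρ h => by
    induction ρ with
    | zero => simp [vr]
    | succ ρ ih =>
      intro k hk
      have k' : 3 * φ.length - 1 - k < 3 * φ.length := by omega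
      have k'' : 3 * φ.length - 1 - (3 * φ.length - 1 - k) = k := by omega
      have := (vr_vr (ρ := ρ) k').2.2
      rw [k''] at this
      rw [this, ← ih (by omega) _ k']
      refine ⟨fun e => (c ρ (by omega) _ k').resolve_right fun w => ?_, fun e => (c _ h _ hk).resolve_right fun w => ?_⟩
      · have := w.1 h
        rw [k''] at this
        exact absurd (this.uniq e.2.2 k'.le hk.le).1 (by omega)
      · exact absurd ((w.2.2 ρ rfl).uniq (e.1 h) hk.le k'.le).1 (by omega)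
  refine ⟨fun x => decide (Early φ C 0 x), fun X hX => ?_⟩
  obtain ⟨ρ, m, rfl⟩ := List.getElem_of_mem hX
  obtain ⟨v1, v2⟩ := va_ok ho m
  have e1 : ∀ q < 3, One φ C ρ q → Early φ C 0 (va φ ρ q) := fun q hq w => by
    have r := vr_vr (ρ := ρ) (v1 q)
    rw [← r.2.1, ← d ρ m.le _ r.1]
    refine (c ρ m.le _ r.1).resolve_right fun t => ?_
    have := t.2.1
    rw [v2 q hq] at this
    exact absurd ((this (by omega)).uniq w r.1.le le_rfl).2 r.1.ne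
  have e2 : ∀ q < 3, Zero φ C ρ q → ¬Early φ C 0 (va φ ρ q) := fun q hq w => by
    have r := vr_vr (ρ := ρ) (v1 q)
    rw [← r.2.1, ← d ρ m.le _ r.1]
    exact fun t => absurd ((t.2.1 (by rw [v2 q hq]; omega)).uniq w r.1.le le_rfl).2 r.1.ne
  have e3 : φ[ρ].1 = va φ ρ 0 ∧ φ[ρ].2.1 = va φ ρ 1 ∧ φ[ρ].2.2 = va φ ρ 2 := by simp [va, m]
  rw [e3.1, e3.2.1, e3.2.2]
  rcases (H.cla ho m.le).2 (H.tight ho h m.le le_rfl) m with ⟨x, y, z⟩ | ⟨x, y, z⟩ | ⟨x, y, z⟩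
  · simp [one3, e1 0 (by omega) x, e2 1 (by omega) y, e2 2 (by omega) z]
  · simp [one3, e2 0 (by omega) x, e1 1 (by omega) y, e2 2 (by omega) z]
  · simp [one3, e2 0 (by omega) x, e2 1 (by omega) y, e1 2 (by omega) z]

end Pool.Agent.H.MP_9ce56d_lc
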