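import Pool.Agent.H.MP_9ce56d_lc.D

/-! Completeness. -/

namespace Pool.Agent.H.MP_9ce56d_lc

open Finset Pool.Agent.Lib.CX

variable {φ : List (T3 ℕ)} {ρ k q : ℕ} {j : ℕ × ℕ × ℕ} {v : ℕ → Bool}

def tau (φ : List (T3 ℕ)) (v : ℕ → Bool) (j : ℕ × ℕ × ℕ) : ℕ × ℕ × ℕ :=
  if pin φ j then j else if j.2.1 < 3 * φ.length then if v (vr φ j.1 j.2.1) ∨ j.2.2 = 1 then j else
    if j.2.2 = 2 then (j.1 + 1, 3 * φ.length - 1 - j.2.1, 3) else if j.2.2 = 3 then if j.1 = 0 then j else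
      (j.1 - 1, 3 * φ.length - 1 - j.2.1, 2) else (j.1, 3 * φ.length, cq φ j.1 j.2.1 + 2)
  else if v (va φ j.1 (j.2.2 - 2)) then j else (j.1, vr φ j.1 (va φ j.1 (j.2.2 - 2)), 4)

def pos (φ : List (T3 ℕ)) (v : ℕ → Bool) (j : ℕ × ℕ × ℕ) : ℕ :=
  if pin φ j then dj φ j else ix φ j.1 j.2.1 * 170 + if j.2.1 < 3 * φ.length then if j.2.2 = 1 then
    26 + if v (vr φ j.1 j.2.1) then ss φ j.1 j.2.1 else 0 else (if j.2.2 = 2 then sa φ j.1 else if j.2.2 = 3 then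
      ss φ j.1 j.2.1 else sa φ j.1 + cs (cq φ j.1 j.2.1)) + if v (vr φ j.1 j.2.1) then 0 else 26
  else if v (va φ j.1 (j.2.2 - 2)) then cs (j.2.2 - 2) else if j.2.2 = 4 then 149 else if v (va φ j.1 2) then
    if j.2.2 = 2 then 99 else 149 else 98

theorem npU (h : k < 3 * φ.length) : ¬pin φ (ρ, k, 1) := by simp [pin, h.not_ge]
theorem npA (h : k < 3 * φ.length) (m : ρ < φ.length) : ¬pin φ (ρ, k, 2) := by simp [pin, h.not_ge, m.not_ge]
theorem npB (h : k < 3 * φ.length) : ¬pin φ (ρ, k, 3) := by simp [pin, h.not_ge]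
theorem npC (h : k < 3 * φ.length) (m : cq φ ρ k ≠ 3) : ¬pin φ (ρ, k, 4) := by simp [pin, h.not_ge, m]
theorem npD (m : ρ < φ.length) : ¬pin φ (ρ, 3 * φ.length, q + 2) := by simp [pin, m.not_ge]

theorem tau_ok (ho : Ok φ) (hj : j ∈ jobs φ) : tau φ v j ∈ jobs φ ∧ (pin φ (tau φ v j) ↔ pin φ j) ∧
    tau φ v (tau φ v j) = j ∧ pj φ (tau φ v j) = pj φ j ∧ (¬pin φ j → dj φ (tau φ v j) ≤ pos φ v j) := by
  have id : tau φ v j = j → (¬pin φ j → dj φ j ≤ pos φ v j) → _ := fun e h => by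
    rw [← e] at h; exact (show tau φ v j ∈ jobs φ ∧ (pin φ (tau φ v j) ↔ pin φ j) ∧ tau φ v (tau φ v j) = j ∧
      pj φ (tau φ v j) = pj φ j ∧ (¬pin φ j → dj φ (tau φ v j) ≤ pos φ v j) by simp only [e] at h ⊢; exact ⟨hj, trivial,
        trivial, trivial, h⟩)
  by_cases np : pin φ j
  · exact id (if_pos np) fun h => absurd np h
  obtain ⟨ρ, a, ⟨k, b, ⟨rfl, c⟩ | ⟨rfl, c, d⟩ | ⟨rfl, c⟩ | ⟨rfl, c, d⟩⟩ | ⟨b, q, c, rfl, d⟩⟩ := cls hj np
  · exact id (by simp [tau, b]) fun _ => by simp only [djU b, pos, np, b, if_true, if_false]; omega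
  all_goals have s1' := sb_eq ρ; have s2 := sa_eq (φ := φ) ρ
  · have k' : 3 * φ.length - 1 - k < 3 * φ.length := by omega
    have k'' : 3 * φ.length - 1 - (3 * φ.length - 1 - k) = k := by omega
    by_cases w : v (vr φ ρ k)
    · exact id (by simp [tau, b, w]) fun _ => by simp [djA b c, pos, np, b]; omega
    have e : tau φ v (ρ, k, 2) = (ρ + 1, 3 * φ.length - 1 - k, 3) := by simp [tau, np, b, w]
    rw [e, d]
    refine ⟨mem_jobs.2 ⟨c, k'.le, by simp⟩, by simp [np, npB k'], by simp [tau, npB k', k', (vr_vr b).2.2, w, k''],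
      by simp [pj, npB k', k'], fun _ => ?_⟩
    simp [djB k', s1, st_succ, k'', pos, np, b, w]
    omega
  · have s3 := ss_le (φ := φ) ρ k
    have k' : 3 * φ.length - 1 - k < 3 * φ.length := by omega
    have k'' : 3 * φ.length - 1 - (3 * φ.length - 1 - k) = k := by omega
    rcases ρ with _ | ρ
    · exact id (by simp [tau, b]) fun _ => by simp [djB b, s1, st_zero, pos, np, b]; omega
    by_cases w : v (vr φ (ρ + 1) k)
    · refine id (by simp [tau, b, w]) fun _ => ?_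
      simp [djB b, s1, st_succ, pos, np, b, ix_succ, ix_eq _ k, ix_eq _ (_ - _)]
      omega
    have e : tau φ v (ρ + 1, k, 3) = (ρ, 3 * φ.length - 1 - k, 2) := by simp [tau, np, b, w]
    have r := (vr_vr (ρ := ρ) k').2.2
    rw [k''] at r
    rw [e, c]
    refine ⟨mem_jobs.2 ⟨by simp only; omega, k'.le, by simp⟩, by simp [np, npA k' a],
      by simp [tau, npA k' a, k', ← r, w, k''], by simp [pj, npA k' a, k', sa, Nat.lt_of_succ_le a], fun _ => ?_⟩
    simp [djA k' a, pos, np, b, ix_succ, ix_eq _ k, ix_eq _ (_ - _)]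
    omega
  · obtain ⟨m, s3, s4⟩ := (cq_eq (φ := φ) ρ k).resolve_left fun w => c w.1
    by_cases w : v (vr φ ρ k)
    · exact id (by simp [tau, b, w]) fun _ => by simp [djC b c, pos, np, b]; omega
    have e : tau φ v (ρ, k, 4) = (ρ, 3 * φ.length, cq φ ρ k + 2) := by simp [tau, np, b, w]
    rw [e, d]
    refine ⟨mem_jobs.2 ⟨a, le_rfl, by simp only; omega⟩, by simp [np, npD m], by simp [tau, npD m, ← s3, w, (vr_vr b).2.1],
      by simp [pj, npD m], fun _ => ?_⟩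
    simp [djD m, sC, ← s3, (vr_vr b).2.1, pos, np, b, w]
    omega
  · have r := vr_vr (ρ := ρ) ((va_ok ho b).1 q)
    have t := (va_ok ho b).2 q c
    have s3 := cs_eq c
    by_cases w : v (va φ ρ q)
    · refine id (by simp [tau, w]) fun _ => ?_
      have := (gc_eq ho b q).2.2
      simp [djD b, pos, np, w]
      omega
    have e : tau φ v (ρ, 3 * φ.length, q + 2) = (ρ, vr φ ρ (va φ ρ q), 4) := by simp [tau, np, w]
    have u := npC r.1 (show cq φ ρ _ ≠ 3 by omega)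
    rw [e, d]
    refine ⟨mem_jobs.2 ⟨a, r.1.le, by simp⟩, by simp [np, u], by simp [tau, u, r.1, r.2.1, w, t],
      by simp [pj, u, r.1, t], fun _ => ?_⟩
    simp only [djC r.1 (show cq φ ρ _ ≠ 3 by omega), pos, np, ix_eq _ (vr _ _ _), ix_eq _ (3 * _), if_false]
    omega

/-- the assignment makes exactly one variable of each clause true -/
def Sat (φ : List (T3 ℕ)) (v : ℕ → Bool) : Prop :=
  ∀ ρ < φ.length, one3 (v (va φ ρ 0)) (v (va φ ρ 1)) (v (va φ ρ 2)) = true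

theorem pos_ok (hv : Sat φ v) : ∀ κ < 5, ix φ ρ k * 170 + pj φ (ρ, k, κ) ≤ pos φ v (ρ, k, κ) ∧
    pos φ v (ρ, k, κ) ≤ ix φ ρ k * 170 + 170 ∧ ∀ κ' < κ, pos φ v (ρ, k, κ) + pj φ (ρ, k, κ') ≤ pos φ v (ρ, k, κ') ∨
      pos φ v (ρ, k, κ') + pj φ (ρ, k, κ) ≤ pos φ v (ρ, k, κ) := by
  have := ll_nf (φ := φ) ρ k
  have := hv ρ
  have : cs 0 = 48 ∧ cs 1 = 50 ∧ cs 2 = 51 := ⟨rfl, rfl, rfl⟩
  simp only [Nat.forall_lt_succ_right, Nat.not_lt_zero, false_imp_iff, implies_true, true_and, pos, pj, dj, pin, ll, nf, ss,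
    ← not_lt] at *
  by_cases a : k < 3 * φ.length <;> by_cases b : ρ < φ.length
  · have := cq_eq (φ := φ) ρ k
    by_cases c : cq φ ρ k = 3 <;> by_cases d : v (vr φ ρ k) <;> simp [a, b, c, d, -not_lt] at * <;> omega
  · have : cq φ ρ k = 3 := if_neg b
    by_cases d : v (vr φ ρ k) <;> simp [a, b, d, this, sa, cs, -not_lt] at * <;> omega
  · cases h0 : v (va φ ρ 0) <;> cases h1 : v (va φ ρ 1) <;> cases h2 : v (va φ ρ 2) <;> simp [one3, *, -not_lt] at * <;> omega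
  · simp [a, b, -not_lt]

theorem val_ok (ho : Ok φ) (hv : Sat φ v) (h : ρ ≤ φ.length) (hk : k ≤ 3 * φ.length) :
    (∑ κ ∈ range 5, if pin φ (ρ, k, κ) then 0 else ref φ (ρ, k, κ)) =
      ∑ κ ∈ range 5, if pin φ (ρ, k, κ) then 0 else val φ (tau φ v (ρ, k, κ)) (pos φ v (ρ, k, κ)) := by
  rcases hk.lt_or_eq with hk | rfl
  · by_cases w : v (vr φ ρ k)
    · refine sum_congr rfl fun κ _ => ?_
      by_cases p : pin φ (ρ, k, κ)
      · simp only [p, if_true]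
      · simp only [p, if_false, ref, tau, pos, hk, w, if_true, true_or]
        split_ifs <;> rfl
    have k' : 3 * φ.length - 1 - k < 3 * φ.length := by omega
    have k'' : 3 * φ.length - 1 - (3 * φ.length - 1 - k) = k := by omega
    have p0 : pin φ (ρ, k, 0) := .inl rfl
    obtain ⟨-, -, -, -, B5, B6, -⟩ := eB_le h hk
    have a1 : val φ (tau φ v (ρ, k, 1)) (pos φ v (ρ, k, 1)) = ref φ (ρ, k, 1) + eU φ ρ k * ss φ ρ k := by
      simp [tau, pos, ref, npU hk, hk, w, valU hk]; ring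
    have a3 : val φ (tau φ v (ρ, k, 3)) (pos φ v (ρ, k, 3)) = ref φ (ρ, k, 3) - (26 * eB φ ρ k + dB φ ρ k) := by
      rcases ρ with _ | ρ
      · simp [tau, pos, ref, npB hk, hk, w, valB hk, B6]; ring
      · simp [tau, pos, ref, npB hk, hk, w, valB hk, valA k', k'', t0]; ring
    have a2 : ¬pin φ (ρ, k, 2) → val φ (tau φ v (ρ, k, 2)) (pos φ v (ρ, k, 2)) = ref φ (ρ, k, 2) := fun p => by
      have m : ρ + 1 ≤ φ.length := Nat.lt_of_not_le fun w => p (.inr (.inl ⟨hk, .inl ⟨rfl, w⟩⟩))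
      have E3 := ((eB_le m k').2.2.2.2.2.2 (by omega)).2
      have E4 := (gg_eq m k').2.2 (by omega)
      have E7 : s1 φ (ρ + 1) (3 * φ.length - 1 - k) = ix φ ρ k * 170 + (26 + sa φ ρ) := by
        simp [s1, st_succ, k'', sa, Nat.lt_of_succ_le m]
      simp [tau, pos, ref, p, hk, w, valB k', valA hk]
      zify at E3 E4 E7
      linear_combination E3 - dB φ (ρ + 1) (3 * φ.length - 1 - k) * (E4 - E7)
    have a4 : ¬pin φ (ρ, k, 4) → val φ (tau φ v (ρ, k, 4)) (pos φ v (ρ, k, 4)) = ref φ (ρ, k, 4) := fun p => by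
      obtain ⟨m, s3, s4⟩ := (cq_eq (φ := φ) ρ k).resolve_left fun w => p (.inr (.inl ⟨hk, .inr ⟨rfl, w.1⟩⟩))
      have E3 := (eC_le ho m (show cq φ ρ k < 3 by omega)).2.2.2.2
      have E4 := (gc_eq ho m (cq φ ρ k)).2.2
      have E6 : sC φ ρ (cq φ ρ k) = ix φ ρ k * 170 + (26 + sa φ ρ + cs (cq φ ρ k)) := by rw [sC, ← s3, (vr_vr hk).2.1]
      simp [tau, pos, ref, p, hk, w, valD, valC hk]
      zify at E3 E4 E6
      linear_combination E3 - dC φ ρ (cq φ ρ k) * (E4 - E6)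
    zify at B5
    simp only [sum_range_succ, sum_range_zero, p0, npU hk, npB hk, if_true, if_false, a1, a3]
    split_ifs with c d d
    exacts [by linarith, by linarith [a4 d], by linarith [a2 c], by linarith [a2 c, a4 d]]
  by_cases m : ρ < φ.length
  swap
  · simp [pin, not_lt.1 m]
  have a : ∀ q < 3, val φ (tau φ v (ρ, 3 * φ.length, q + 2)) (pos φ v (ρ, 3 * φ.length, q + 2)) =
      eC φ ρ q * (ix φ ρ (3 * φ.length) * 170 + 170 - pos φ v (ρ, 3 * φ.length, q + 2)) +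
        if v (va φ ρ q) then (hh φ ρ : ℤ) else 0 := fun q hq => by
    by_cases w : v (va φ ρ q)
    · simp [tau, pos, npD m, w, valD]
    · simp [tau, npD m, w, valC (vr_vr ((va_ok ho m).1 q)).1, (va_ok ho m).2 q hq]
  have p0 : pin φ (ρ, 3 * φ.length, 0) := .inl rfl
  have p1 : pin φ (ρ, 3 * φ.length, 1) := .inr (.inr ⟨le_rfl, .inl rfl⟩)
  have p2 : ¬pin φ (ρ, 3 * φ.length, 2) := npD (q := 0) m
  have p3 : ¬pin φ (ρ, 3 * φ.length, 3) := npD (q := 1) m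
  have p4 : ¬pin φ (ρ, 3 * φ.length, 4) := npD (q := 2) m
  have a0 := a 0 (by omega)
  have a1 := a 1 (by omega)
  have a2 := a 2 (by omega)
  simp only [Nat.reduceAdd] at a0 a1 a2
  simp only [sum_range_succ, p0, p1, p2, p3, p4, if_true, if_false, a0, a1, a2]
  have := hv ρ m
  cases h0 : v (va φ ρ 0) <;> cases h1 : v (va φ ρ 1) <;> cases h2 : v (va φ ρ 2) <;>
    simp [one3, h0, h1, h2] at this <;> simp [ref, pos, p2, p3, p4, h0, h1, h2, eC, cs] <;> ring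

theorem complete (ho : Ok φ) (h : SatR one3 φ) : ∃ C, Set.InjOn C (jobs φ) ∧ Feas φ C ∧
    ∑ j ∈ jobs φ, (if pin φ j then 0 else ref φ j) ≤ ∑ j ∈ jobs φ, if pin φ j then 0 else val φ j (C j) := by
  obtain ⟨v, h⟩ := h
  have hv : Sat φ v := fun ρ m => by simpa [va, m] using h _ (List.getElem_mem m)
  have a : ∀ j ∈ jobs φ, pj φ j ≤ pos φ v j ∧ pos φ v j ≤ (φ.length + 1) * (3 * φ.length + 1) * 170 := by
    rintro ⟨ρ, k, κ⟩ hj
    obtain ⟨a, b, c⟩ := mem_jobs.1 hj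
    have := pos_ok (ρ := ρ) (k := k) hv κ (Nat.lt_succ_of_le c)
    have := ix_bb a
    have := ix_eq (φ := φ) ρ k
    simp only [bb] at *
    omega
  have b : ∀ i ∈ jobs φ, ∀ j ∈ jobs φ, i ≠ j → pos φ v i + pj φ j ≤ pos φ v j ∨ pos φ v j + pj φ i ≤ pos φ v i := by
    rintro ⟨ρ, k, κ⟩ hi ⟨ρ', k', κ'⟩ hj e
    obtain ⟨a, b, c⟩ := mem_jobs.1 hi
    obtain ⟨a', b', c'⟩ := mem_jobs.1 hj
    obtain ⟨p1, p2, p3⟩ := pos_ok (ρ := ρ) (k := k) hv κ (Nat.lt_succ_of_le c)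
    obtain ⟨q1, q2, q3⟩ := pos_ok (ρ := ρ') (k := k') hv κ' (Nat.lt_succ_of_le c')
    by_cases r : ix φ ρ k = ix φ ρ' k'
    · obtain ⟨rfl, rfl⟩ := ix_inj r b b'
      rcases lt_trichotomy κ κ' with s | rfl | s
      exacts [(q3 κ s).symm, absurd rfl e, p3 κ' s]
    · omega
  have t := fun j (hj : j ∈ jobs φ) => tau_ok (v := v) ho hj
  have a' : ∀ j ∈ jobs φ, pj φ j ≤ pos φ v (tau φ v j) ∧ pos φ v (tau φ v j) ≤ (φ.length + 1) * (3 * φ.length + 1) * 170 :=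
    fun j hj => (t j hj).2.2.2.1 ▸ a _ (t j hj).1
  have b' : ∀ i ∈ jobs φ, ∀ j ∈ jobs φ, i ≠ j → pos φ v (tau φ v i) + pj φ j ≤ pos φ v (tau φ v j) ∨
      pos φ v (tau φ v j) + pj φ i ≤ pos φ v (tau φ v i) := fun i hi j hj e => by
    rw [← (t j hj).2.2.2.1, ← (t i hi).2.2.2.1]
    exact b _ (t i hi).1 _ (t j hj).1 fun w => e (by rw [← (t i hi).2.2.1, w, (t j hj).2.2.1])
  refine ⟨fun j => pos φ v (tau φ v j), fun i hi j hj e => ?_, ⟨b', tile (by rwa [sum_pj]) (fun j hj => (pj_pos hj).1) b',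
    fun j hj => ?_, a'⟩, ?_⟩
  · by_contra c
    have := b' i hi j hj c
    have := pj_pos hi
    have := pj_pos hj
    simp only at e
    omega
  · split_ifs with c
    · rw [tau, if_pos c, pos, if_pos c]
    · have := (t _ (t j hj).1).2.2.2.2 (mt (t j hj).2.1.1 c)
      rwa [(t j hj).2.2.1] at this
  · refine le_of_eq (Eq.trans ?_ (sum_nbij' (tau φ v) (tau φ v) (fun j hj => (t j hj).1) (fun j hj => (t j hj).1)
      (fun j hj => (t j hj).2.2.1) (fun j hj => (t j hj).2.2.1)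
      (f := fun j => if pin φ j then 0 else val φ (tau φ v j) (pos φ v j)) fun j hj => ?_))
    · rw [sum_jobs, sum_jobs]
      refine sum_congr rfl ?_
      rintro ⟨ρ, k⟩ hr
      simp only [mem_product, mem_range] at hr ⊢
      exact val_ok ho hv (by omega) (by omega)
    · simp only [(t j hj).2.1, (t j hj).2.2.1]

end Pool.Agent.H.MP_9ce56d_lc
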