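import Pool.Agent.H.MP_9ce56d_lc.E

/-! The reduction. -/

namespace Pool.Agent.H.MP_9ce56d_lc

open Finset Pool.Agent.Lib.CX

set_option synthInstance.maxSize 4000

def nn (φ : List (T3 ℕ)) : ℕ := (φ.length + 1) * ((3 * φ.length + 1) * 5)

def dec (φ : List (T3 ℕ)) (t : ℕ) : ℕ × ℕ × ℕ :=
  (t / ((3 * φ.length + 1) * 5), t % ((3 * φ.length + 1) * 5) / 5, t % ((3 * φ.length + 1) * 5) % 5)

def sm (φ : List (T3 ℕ)) (f : ℕ × ℕ × ℕ → ℕ) : ℕ := ((List.range (nn φ)).map fun t => f (dec φ t)).sum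

def kj (φ : List (T3 ℕ)) (j : ℕ × ℕ × ℕ) : ℤ := if pin φ j then 0 else val φ j (dj φ j) - ref φ j

def kk (φ : List (T3 ℕ)) : ℤ := (sm φ fun j => (kj φ j).toNat) - (sm φ fun j => (-kj φ j).toNat)

def wj (φ : List (T3 ℕ)) (M : ℕ) (j : ℕ × ℕ × ℕ) : ℕ := if pin φ j then 4 * M * pj φ j else 2 * M * pj φ j + ej φ j

def out (φ : List (T3 ℕ)) (K : ℤ) : List (ℕ × ℕ × ℕ) × ℤ :=
  ((List.range (nn φ)).map fun t => (pj φ (dec φ t), dj φ (dec φ t), wj φ (K.natAbs + 1) (dec φ t)),
    (K.natAbs + 1 : ℕ) * ((sm φ (pj φ) ^ 2 : ℕ) + (sm φ fun j => pj φ j ^ 2 : ℕ) - 2 * (sm φ fun j => pj φ j * dj φ j : ℕ)) + K)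

section
attribute [local irreducible] vr va cq cs sb sa ss ix st s1 t0 ex gg zz eB dB eU sC gc hh eC dC ll nf pj dj ej aj val ref dec
  kj wj
variable {α : Type} [Enc α] {f : α → List (T3 ℕ)} {g h : α → ℕ} {j : α → ℕ × ℕ × ℕ}

@[fun_prop] theorem pt_vr (a : PT f) (b : PT g) (c : PT h) : PT fun x => vr (f x) (g x) (h x) := by unfold vr; fun_prop
@[fun_prop] theorem pt_va (a : PT f) (b : PT g) (c : PT h) : PT fun x => va (f x) (g x) (h x) := by unfold va; fun_prop
@[fun_prop] theorem pt_cq (a : PT f) (b : PT g) (c : PT h) : PT fun x => cq (f x) (g x) (h x) := by unfold cq; fun_prop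
@[fun_prop] theorem pt_cs (b : PT g) : PT fun x => cs (g x) := by unfold cs; fun_prop
@[fun_prop] theorem pt_sb (b : PT g) : PT fun x => sb (g x) := by unfold sb; fun_prop
@[fun_prop] theorem pt_sa (a : PT f) (b : PT g) : PT fun x => sa (f x) (g x) := by unfold sa; fun_prop
@[fun_prop] theorem pt_ss (a : PT f) (b : PT g) (c : PT h) : PT fun x => ss (f x) (g x) (h x) := by unfold ss; fun_prop
@[fun_prop] theorem pt_ix (a : PT f) (b : PT g) (c : PT h) : PT fun x => ix (f x) (g x) (h x) := by unfold ix; fun_prop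
@[fun_prop] theorem pt_st (a : PT f) (b : PT g) (c : PT h) : PT fun x => st (f x) (g x) (h x) := by unfold st; fun_prop
@[fun_prop] theorem pt_s1 (a : PT f) (b : PT g) (c : PT h) : PT fun x => s1 (f x) (g x) (h x) := by unfold s1; fun_prop
@[fun_prop] theorem pt_t0 (a : PT f) (b : PT g) (c : PT h) : PT fun x => t0 (f x) (g x) (h x) := by unfold t0; fun_prop
@[fun_prop] theorem pt_ex (a : PT f) (b : PT g) (c : PT h) : PT fun x => ex (f x) (g x) (h x) := by unfold ex; fun_prop
@[fun_prop] theorem pt_gg (a : PT f) (b : PT g) (c : PT h) : PT fun x => gg (f x) (g x) (h x) := by unfold gg; fun_prop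
@[fun_prop] theorem pt_zz (a : PT f) (b : PT g) : PT fun x => zz (f x) (g x) := by
  unfold zz bb; exact PT.pow (by fun_prop) (by fun_prop) (PB.min_right (by fun_prop))
@[fun_prop] theorem pt_eB (a : PT f) (b : PT g) (c : PT h) : PT fun x => eB (f x) (g x) (h x) := by unfold eB; fun_prop
@[fun_prop] theorem pt_dB (a : PT f) (b : PT g) (c : PT h) : PT fun x => dB (f x) (g x) (h x) := by unfold dB; fun_prop
@[fun_prop] theorem pt_eU (a : PT f) (b : PT g) (c : PT h) : PT fun x => eU (f x) (g x) (h x) := by unfold eU; fun_prop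
@[fun_prop] theorem pt_sC (a : PT f) (b : PT g) (c : PT h) : PT fun x => sC (f x) (g x) (h x) := by unfold sC; fun_prop
@[fun_prop] theorem pt_gc (a : PT f) (b : PT g) (c : PT h) : PT fun x => gc (f x) (g x) (h x) := by unfold gc; fun_prop
@[fun_prop] theorem pt_hh (a : PT f) (b : PT g) : PT fun x => hh (f x) (g x) := by unfold hh; fun_prop
@[fun_prop] theorem pt_eC (a : PT f) (b : PT g) (c : PT h) : PT fun x => eC (f x) (g x) (h x) := by unfold eC; fun_prop
@[fun_prop] theorem pt_dC (a : PT f) (b : PT g) (c : PT h) : PT fun x => dC (f x) (g x) (h x) := by unfold dC; fun_prop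
@[fun_prop] theorem pt_ll (a : PT f) (b : PT g) (c : PT h) : PT fun x => ll (f x) (g x) (h x) := by unfold ll; fun_prop
@[fun_prop] theorem pt_nf (a : PT f) (b : PT g) (c : PT h) : PT fun x => nf (f x) (g x) (h x) := by unfold nf; fun_prop
theorem pt_pin (a : PT f) (b : PT j) : PT fun x => decide (pin (f x) (j x)) := by unfold pin; fun_prop
theorem pt_if {β : Type} [Enc β] {u v : α → β} (a : PT f) (b : PT j) (c : PT u) (d : PT v) :
    PT fun x => if pin (f x) (j x) then u x else v x := ((pt_pin a b).cond c d).congr fun x => by simp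
@[fun_prop] theorem pt_pj (a : PT f) (b : PT j) : PT fun x => pj (f x) (j x) := by
  unfold pj; exact PT.ite (by fun_prop) (by fun_prop) (pt_if a b (by fun_prop) (by fun_prop))
@[fun_prop] theorem pt_dj (a : PT f) (b : PT j) : PT fun x => dj (f x) (j x) := by
  unfold dj; exact PT.ite (by fun_prop) (by fun_prop) (pt_if a b (by fun_prop) (by fun_prop))
@[fun_prop] theorem pt_ej (a : PT f) (b : PT j) : PT fun x => ej (f x) (j x) := by unfold ej; fun_prop
@[fun_prop] theorem pt_aj (a : PT f) (b : PT j) : PT fun x => aj (f x) (j x) := by unfold aj; fun_prop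
@[fun_prop] theorem pt_val (a : PT f) (b : PT j) (c : PT h) : PT fun x => val (f x) (j x) (h x) := by unfold val; fun_prop
@[fun_prop] theorem pt_ref (a : PT f) (b : PT j) : PT fun x => ref (f x) (j x) := by unfold ref; fun_prop
@[fun_prop] theorem pt_dec (a : PT f) (b : PT g) : PT fun x => dec (f x) (g x) := by unfold dec; fun_prop

@[fun_prop] theorem pt_kj (a : PT f) (b : PT j) : PT fun x => kj (f x) (j x) := by
  unfold kj; exact pt_if a b (by fun_prop) (by fun_prop)
@[fun_prop] theorem pt_wj (a : PT f) (b : PT j) (c : PT h) : PT fun x => wj (f x) (h x) (j x) := by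
  unfold wj; exact pt_if a b (by fun_prop) (by fun_prop)

theorem pt_kk : PT kk := by unfold kk sm nn; fun_prop

theorem pt_out : PT fun a : List (T3 ℕ) × ℤ => out a.1 a.2 := by unfold out sm nn; fun_prop

end

end Pool.Agent.H.MP_9ce56d_lc
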