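import Pool.Agent.H.MP_9ce56d_lc.F

/-! Correctness of the reduction. -/

namespace Pool.Agent.H.MP_9ce56d_lc

open Finset Pool.Agent.Lib.CX

set_option synthInstance.maxSize 4000

variable {φ : List (T3 ℕ)}

def enc' (φ : List (T3 ℕ)) (j : ℕ × ℕ × ℕ) : ℕ := j.2.2 + 5 * j.2.1 + (3 * φ.length + 1) * 5 * j.1

theorem dec_mem {t} (h : t < nn φ) : dec φ t ∈ jobs φ ∧ enc' φ (dec φ t) = t := by
  have a := Nat.mod_lt t (show 0 < (3 * φ.length + 1) * 5 by omega)
  have b := Nat.div_lt_of_lt_mul (show t < (3 * φ.length + 1) * 5 * (φ.length + 1) by rwa [mul_comm])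
  have c := Nat.mod_add_div t ((3 * φ.length + 1) * 5)
  simp only [mem_jobs, dec, enc']
  omega

theorem enc_mem {j} (h : j ∈ jobs φ) : enc' φ j < nn φ ∧ dec φ (enc' φ j) = j := by
  obtain ⟨ρ, k, κ⟩ := j
  simp only [mem_jobs] at h
  have a : κ + 5 * k < (3 * φ.length + 1) * 5 := by omega
  refine ⟨by simp only [enc', nn]; nlinarith [Nat.mul_le_mul_left ((3 * φ.length + 1) * 5) h.1], ?_⟩
  simp only [dec, enc', Nat.add_mul_div_left _ _ (Nat.zero_lt_of_lt a), Nat.add_mul_mod_self_left, Nat.div_eq_of_lt a,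
    Nat.mod_eq_of_lt a, Prod.mk.injEq]
  omega

theorem sum_dec {β : Type} [AddCommMonoid β] (f : ℕ × ℕ × ℕ → β) : ∑ t ∈ range (nn φ), f (dec φ t) = ∑ j ∈ jobs φ, f j :=
  sum_nbij' (dec φ) (enc' φ) (fun _ h => (dec_mem (mem_range.1 h)).1) (fun _ h => mem_range.2 (enc_mem h).1)
    (fun _ h => (dec_mem (mem_range.1 h)).2) (fun _ h => (enc_mem h).2) fun _ _ => rfl

theorem sm_eq (f) : sm φ f = ∑ j ∈ jobs φ, f j := sum_dec f

theorem kk_eq : kk φ = ∑ j ∈ jobs φ, if pin φ j then 0 else val φ j (dj φ j) - ref φ j := by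
  simp only [kk, sm_eq, Nat.cast_sum, ← sum_sub_distrib, Int.toNat_sub_toNat_neg, kj]

/-- some order of the jobs has small total weighted tardiness -/
def TW (a : List (ℕ × ℕ × ℕ) × ℤ) : Prop := ∃ σ : Equiv.Perm (Fin a.1.length),
  ∑ j, (a.1[j].2.2 : ℤ) * max 0 (((∑ i with σ i ≤ σ j, a.1[i].1 : ℕ) : ℤ) - a.1[j].2.1) ≤ a.2

theorem tw_map (N : ℕ) (F : ℕ → ℕ × ℕ × ℕ) (k : ℤ) : TW ((List.range N).map F, k) ↔ ∃ σ : ℕ → ℕ, Set.InjOn σ (range N) ∧
    ∑ j ∈ range N, ((F j).2.2 : ℤ) * max 0 ((ct (range N) (fun i => (F i).1) σ j : ℤ) - (F j).2.1) ≤ k := by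
  classical
  have e : ((List.range N).map F).length = N := by simp
  refine Iff.trans (Iff.trans ?_ (perm_iff fun r => ∑ j : Fin ((List.range N).map F).length,
    (((List.range N).map F)[j].2.2 : ℤ) * max 0 (((∑ i with r i j, ((List.range N).map F)[i].1 : ℕ) : ℤ) -
      ((List.range N).map F)[j].2.1) ≤ k)) ?_
  · unfold TW; congr!
  refine exists_congr fun σ => and_congr (by rw [e]) ?_
  simp only [Fin.getElem_fin, List.getElem_map, List.getElem_range, ct, sum_filter]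
  generalize ((List.range N).map F).length = M at e
  subst e
  simp only [sum_range]

theorem hard : NPHard fun a : {a : List (ℕ × ℕ × ℕ) × ℤ // ∀ j ∈ a.1, 1 ≤ j.1 ∧ j.1 ≤ 170} => TW a.1 := by
  have p : ∀ φ, ∀ j ∈ (out φ (kk φ)).1, 1 ≤ j.1 ∧ j.1 ≤ 170 := fun φ => by
    simp only [out, List.forall_mem_map, List.mem_range]
    exact fun t ht => pj_pos (dec_mem ht).1
  refine NPHard.of_one3 (fun φ => ⟨out φ (kk φ), p φ⟩) (PT.subtype (pt_out.comp (g := fun φ => (φ, kk φ))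
    (PT.pair PT.id pt_kk) :) p) fun φ ho => ?_
  have k := fun (σ : ℕ × ℕ × ℕ → ℕ) (hσ : Set.InjOn σ (jobs φ)) => hard_iff (d := dj φ) (ε := ej φ) (pin := pin φ) hσ
    (fun j hj => (pj_pos hj).1) (show kk φ < ((kk φ).natAbs + 1 : ℕ) by omega)
  have l : ∀ C : ℕ × ℕ × ℕ → ℕ, ∑ j ∈ jobs φ, (if pin φ j then 0 else (ej φ j : ℤ) * (C j - dj φ j)) ≤ kk φ ↔
      ∑ j ∈ jobs φ, (if pin φ j then 0 else ref φ j) ≤ ∑ j ∈ jobs φ, if pin φ j then 0 else val φ j (C j) := fun C => by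
    rw [kk_eq, ← sub_nonneg, ← sum_sub_distrib, ← sub_nonneg (a := ∑ j ∈ jobs φ, if pin φ j then 0 else val φ j (C j)),
      ← sum_sub_distrib, sum_congr rfl fun j _ => ?_]
    unfold val; split_ifs <;> ring
  have m : ∀ (σ : ℕ × ℕ × ℕ → ℕ) t, ct (range (nn φ)) (fun i => pj φ (dec φ i)) (fun i => σ (dec φ i)) t =
      ct (jobs φ) (pj φ) σ (dec φ t) := fun σ t => by
    simp only [ct, sum_filter]
    exact sum_dec fun j => if σ j ≤ σ (dec φ t) then pj φ j else 0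
  simp only [out, tw_map, sm_eq, Nat.cast_pow, wj]
  constructor
  · intro h
    obtain ⟨C, c, H, d⟩ := complete ho h
    refine ⟨fun i => C (dec φ i), fun i hi j hj e => ?_, ?_⟩
    · have a := dec_mem (mem_range.1 hi)
      have b := dec_mem (mem_range.1 hj)
      rw [← a.2, c a.1 b.1 e, b.2]
    · simp only [m]
      refine (sum_dec fun j => ((if pin φ j then 4 * ((kk φ).natAbs + 1) * pj φ j else 2 * ((kk φ).natAbs + 1) * pj φ j +
        ej φ j : ℕ) : ℤ) * max 0 ((ct (jobs φ) (pj φ) C j : ℤ) - dj φ j)).trans_le ((k C c).2 ⟨fun j hj => ?_, ?_⟩)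
      · rw [H.h2 j hj]; exact H.h3 j hj
      · rw [sum_congr rfl fun j hj => by rw [H.h2 j hj]]
        exact (l C).2 d
  · rintro ⟨σ, hσ, h⟩
    have c : Set.InjOn (fun j => σ (enc' φ j)) (jobs φ) := fun i hi j hj e => by
      have a := enc_mem hi
      have b := enc_mem hj
      rw [← a.2, hσ (by simpa using a.1) (by simpa using b.1) e, b.2]
    have d : ∀ t ∈ range (nn φ), ct (range (nn φ)) (fun i => pj φ (dec φ i)) σ t =
        ct (jobs φ) (pj φ) (fun j => σ (enc' φ j)) (dec φ t) := fun t ht => by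
      rw [← m]
      refine sum_congr (filter_congr fun i hi => ?_) fun _ _ => rfl
      simp only [(dec_mem (mem_range.1 hi)).2, (dec_mem (mem_range.1 ht)).2]
    rw [sum_congr rfl fun t ht => by rw [d t ht]] at h
    obtain ⟨h1, h2⟩ := (k _ c).1 ((sum_dec _).ge.trans h)
    exact Feas.sound ⟨fun i hi j hj => ct_dis c hi hj, fun j => ct_ct (fun j hj => (pj_pos hj).1), h1,
      fun j hj => ⟨le_ct hj, (ct_le j).trans sum_pj.le⟩⟩ ho ((l _).1 h2)

end Pool.Agent.H.MP_9ce56d_lc
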